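import Pool.Agent.J4.H62.LD.Pw
import Pool.Agent.Y745.SW.Blk4

set_option autoImplicit false

/-! The block inequalities at one height. -/

namespace Pool.Agent.J4.H62.LD

open Filter Topology MeasureTheory Complex H370 TH803UC TH803CL Pool.Agent.Y745.SW

noncomputable section

lemma ball_meas (c r : ℝ) : MeasurableSet {t : ℝ | |c - t| ≤ r} :=
  (isClosed_le (by fun_prop) continuous_const).measurableSet

/-- the integral of the number of active zeros -/
lemma count_w (G : Finset ℂ) (w r : ℂ → ℝ) (S : Set ℝ) (hSf : volume S ≠ ⊤) :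
    IntegrableOn (nw G w r) S ∧
    ∫ t in S, nw G w r t = ∑ s ∈ G, w s * (volume.restrict S).real {t : ℝ | |s.im - t| ≤ r s} := by
  classical
  have e1 : nw G w r = fun t => ∑ s ∈ G, w s * {t : ℝ | |s.im - t| ≤ r s}.indicator (fun _ => (1:ℝ)) t := by
    funext t
    unfold nw
    refine Finset.sum_congr rfl fun s _ => ?_
    congr 1
  rw [e1]
  have hi : ∀ s ∈ G, IntegrableOn (fun t => w s * {t : ℝ | |s.im - t| ≤ r s}.indicator (fun _ => (1:ℝ)) t) S := by
    intro s _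
    refine Integrable.const_mul ?_ _
    refine Integrable.indicator ?_ (ball_meas _ _)
    exact integrableOn_const hSf
  refine ⟨integrable_finsetSum _ hi, ?_⟩
  rw [integral_finsetSum _ hi]
  refine Finset.sum_congr rfl fun s _ => ?_
  rw [integral_const_mul, integral_indicator (ball_meas _ _), setIntegral_const, smul_eq_mul, mul_one]

lemma meas_le (S : Set ℝ) {c r : ℝ} (hr : 0 ≤ r) :
    (volume.restrict S).real {t : ℝ | |c - t| ≤ r} ≤ 2 * r := by
  have h1 : {t : ℝ | |c - t| ≤ r} = Set.Icc (c - r) (c + r) := by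
    ext t
    simp only [Set.mem_setOf_eq, Set.mem_Icc, abs_le]
    constructor <;> intro h <;> constructor <;> linarith [h.1, h.2]
  have h2 : (volume.restrict S) {t : ℝ | |c - t| ≤ r} ≤ volume {t : ℝ | |c - t| ≤ r} :=
    Measure.restrict_le_self _
  have h3 : volume {t : ℝ | |c - t| ≤ r} = ENNReal.ofReal (2 * r) := by
    rw [h1, Real.volume_Icc]
    congr 1; ring
  rw [h3] at h2
  calc ((volume.restrict S).real {t : ℝ | |c - t| ≤ r}) ≤ (ENNReal.ofReal (2 * r)).toReal :=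
        ENNReal.toReal_mono ENNReal.ofReal_ne_top h2
    _ = 2 * r := ENNReal.toReal_ofReal (by linarith)

lemma meas_zero {S : Set ℝ} {c r : ℝ} (h : ¬ ∃ t ∈ S, |c - t| ≤ r) :
    (volume.restrict S).real {t : ℝ | |c - t| ≤ r} = 0 := by
  have h1 : (volume.restrict S) {t : ℝ | |c - t| ≤ r} = 0 := by
    rw [Measure.restrict_apply (ball_meas _ _)]
    have : {t : ℝ | |c - t| ≤ r} ∩ S = ∅ := by
      ext t
      simp only [Set.mem_inter_iff, Set.mem_setOf_eq, Set.mem_empty_iff_false, iff_false, not_and]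
      exact fun h1 h2 => h ⟨t, h2, h1⟩
    rw [this, measure_empty]
  rw [Measure.real, h1]
  simp

section

variable {B : ℝ → ℝ} {c : ℕ → ℂ} {ε τ η K T U1 U2 : ℝ}

/-- the deviation in mean square -/
lemma dev_int (hB : Continuous B) {L CS : ℝ} (hT : T + L ≤ 2 * T - L)
    (hL0 : 0 < L) (hε2 : ε < 1 / 2)
    (hSM : ∀ u : ℝ, 0 ≤ u → u ≤ (1 - ε) * L →
      ∫ t in (T + L)..(2 * T - L), ‖St B (τ * L) U1 U2 u t - cexp (I * u * t) * (Mu B (τ * L) L u : ℝ)‖ ^ 2 ≤
      CS * K ^ 2 * (T * (1 + u / (τ * L))))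
    {S : Set ℝ} (hSI : S ⊆ Set.Icc (T + L) (2 * T - L)) :
    ∫ t in S, Gd B (τ * L) L U1 U2 0 t ≤ CS * K ^ 2 * T := by
  have hg1c : Continuous (fun t : ℝ => Gd B (τ * L) L U1 U2 0 t) := by
    have h1 := (Gd_cont hB (τ * L) L U1 U2).comp (f := fun t : ℝ => ((0:ℝ), t)) (by fun_prop)
    simpa only [Function.comp_def] using h1
  have h1 : ∫ t in S, Gd B (τ * L) L U1 U2 0 t ≤ ∫ t in Set.Icc (T + L) (2 * T - L), Gd B (τ * L) L U1 U2 0 t := by
    refine setIntegral_mono_set (hg1c.continuousOn.integrableOn_compact isCompact_Icc) ?_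
      (Filter.Eventually.of_forall hSI)
    refine Filter.Eventually.of_forall fun t => ?_
    simp only [Gd]
    positivity
  have h2 := hSM 0 le_rfl (by nlinarith)
  rw [intervalIntegral.integral_of_le hT, ← integral_Icc_eq_integral_Ioc, zero_div, add_zero, mul_one] at h2
  exact h1.trans h2

/-- the block inequality for the distinct zeros -/
lemma block_d (hTRK : P_TRK) (hMN : P_MN) (hζ : GoodL riemannZeta) {j : ℕ} {C N : ℝ}
    (hW : Wf j C N B) (hK : 0 < K) (hε : 0 < ε) (hε2 : ε < 1 / 2) (hτ : 0 < τ)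
    (hτε : τ ≤ ε / 4) (hη : 0 < η) {L η1 N0 κ1 Y0 CS ε2 : ℝ} (hLd : L = Real.log T) (hL : 10 ≤ L) (hT : T + L ≤ 2 * T - L)
    (hU : 1 ≤ U1) (hη0 : 0 ≤ η1)
    (hEF : ∀ t u : ℝ, T + L ≤ t → t ≤ 2 * T - L → 0 ≤ u → u ≤ (1 - ε) * L →
      ‖St B (τ * L) U1 U2 u t - cexp (I * u * t) * ((Mu B (τ * L) L u : ℝ) -
        DPp c B (τ * L) u (XT ε T) t - DPm c B (τ * L) u (XT ε T) t)‖ ≤ 1 / 2)
    (hMs : ∀ u : ℝ, 2 * (τ * L) ≤ u → |Mu B (τ * L) L u| ≤ 1 / 2) (hCS : 0 < CS)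
    (hSM : ∀ u : ℝ, 0 ≤ u → u ≤ (1 - ε) * L →
      ∫ t in (T + L)..(2 * T - L), ‖St B (τ * L) U1 U2 u t - cexp (I * u * t) * (Mu B (τ * L) L u : ℝ)‖ ^ 2 ≤
      CS * K ^ 2 * (T * (1 + u / (τ * L))))
    (hERS : ∫ t in (T + L)..(2 * T - L), ∑ s ∈ Zf riemannZeta U1 U2, (mult riemannZeta s : ℝ) *
      err B (τ * L) N N0 κ1 Y0 L 0 η1 t (zz s) ≤ ε2 * (N / τ * T))
    {S : Set ℝ} (hS : MeasurableSet S) (hSI : S ⊆ Set.Icc (T + L) (2 * T - L)) :
    volume.real S * (3 * Mu B (τ * L) L 0 - 3 / 2 * K - (1 + η) * (Rf 0 / ((1 - ε) * τ) * ∫ ξ in (-1:ℝ)..1, B ξ ^ 2) -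
      (1 + 1 / η) * (2 * Rf 0)) - 3 / 2 * (CS * K * T) - (1 + 1 / η) * (2 * Rf 0) * (20 * τ * (CS * K ^ 2 * T)) -
      (1 + η) * (∫ t in S, Dq Rf c B ε τ (4 * τ) T t) - 10 * (ε2 * (N / τ * T)) ≤
    2 * ∫ t in S, nw (ZL U1 U2) (fun _ => 1) (fun s => th (τ * L) N N0 κ1 Y0 L |(zz s).im|) t := by
  classical
  have hL0 : 0 < L := by linarith
  have hτL : 0 < τ * L := mul_pos hτ hL0
  have hT0 : 0 < T := by linarith
  have h4τ : 4 * τ ≤ 1 := by linarith
  have h4τ0 : 0 ≤ 4 * τ := by linarith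
  have hSf : volume S ≠ ⊤ := ne_top_of_le_ne_top (by simp) (measure_mono hSI)
  set G : ℝ → ℝ := nw (ZL U1 U2) (fun _ => 1) (fun s => th (τ * L) N N0 κ1 Y0 L |(zz s).im|) with hG
  have hni : IntegrableOn G S := (count_w _ _ _ S hSf).1
  set E : ℝ → ℝ := fun t => ∑ s ∈ Zf riemannZeta U1 U2, (mult riemannZeta s : ℝ) *
      err B (τ * L) N N0 κ1 Y0 L 0 η1 t (zz s) with hE
  have hEi : IntegrableOn E (Set.Icc (T + L) (2 * T - L)) := by
    refine integrable_finsetSum _ fun s _ => ?_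
    exact (err_int hW.cont _ _ _ _ _ _ _ _ hη0 _ _ _).const_mul _
  have hE0 : ∀ t, 0 ≤ E t := fun t => Finset.sum_nonneg fun s _ =>
    mul_nonneg (Nat.cast_nonneg _) (err_nonneg _ _ _ _ _ _ _ _ _ hη0 _ _)
  -- the functions
  set g1 : ℝ → ℝ := fun t => Gd B (τ * L) L U1 U2 0 t with hg1
  set g2 : ℝ → ℝ := fun t => ∫ x in (0:ℝ)..(4 * τ), Gd B (τ * L) L U1 U2 ((1 - ε) * L * x) t with hg2
  have hg1c : Continuous g1 := by
    have h1 := (Gd_cont hW.cont (τ * L) L U1 U2).comp (f := fun t : ℝ => ((0:ℝ), t)) (by fun_prop)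
    simpa only [Function.comp_def] using h1
  have hGc2 : Continuous (Function.uncurry fun t x : ℝ => Gd B (τ * L) L U1 U2 ((1 - ε) * L * x) t) := by
    exact (Gd_cont hW.cont (τ * L) L U1 U2).comp (f := fun p : ℝ × ℝ => ((1 - ε) * L * p.2, p.1)) (by fun_prop)
  have hg2c : Continuous g2 := by
    apply intervalIntegral.continuous_parametric_intervalIntegral_of_continuous'
    exact hGc2
  have hDc : Continuous (fun t : ℝ => Dq Rf c B ε τ (4 * τ) T t) :=
    Dq_cont hW.cont hε hε2 hτ hτε le_rfl h4τ Rf_cont (by rw [← hLd]; exact hL0)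
  set Mb := Rf 0 / ((1 - ε) * τ) * ∫ ξ in (-1:ℝ)..1, B ξ ^ 2 with hMb
  set q := (1 + 1 / η) * (2 * Rf 0) with hq
  have hq0 : 0 ≤ q := mul_nonneg (by positivity) (mul_nonneg (by norm_num) (Rf_nonneg 0))
  -- the pointwise inequality
  have hpt : ∀ t ∈ S, (3 * Mu B (τ * L) L 0 - 3 / 2 * K - (1 + η) * Mb - q) - (3 / 2 / K) * g1 t - q * g2 t -
      (1 + η) * Dq Rf c B ε τ (4 * τ) T t ≤
      2 * G t + 10 * E t := by
    intro t ht
    obtain ⟨ht1, ht2⟩ := hSI ht
    have h1 := pw_d hTRK hζ hW (a := τ * L) (L := L) (Λ := (1 - ε) * L) (η1 := η1) (N0 := N0)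
      (κ1 := κ1) (Y0 := Y0) (t := t) (U1 := U1) (U2 := U2) hU (mul_nonneg (by linarith) hL0.le)
      (by nlinarith) hη0
    have h2 := pair_term (B := B) (c := c) (ε := ε) (τ := τ) (η := η) (T := T) (U1 := U1) (U2 := U2) hW.cont hMN
      hW.even hε hε2 hτ hτε hη (by rw [← hLd]; exact hL0) (t := t) (by rw [← hLd]; exact fun u h3 h4 => hEF t u ht1 ht2 h3 h4)
      (by rw [← hLd]; exact hMs)
    rw [← hLd] at h2
    have h3 : 3 * Mu B (τ * L) L 0 - 3 / 2 * K - (3 / 2 / K) * g1 t ≤ 3 * (St B (τ * L) U1 U2 0 t).re := by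
      have h4 : g1 t = ‖St B (τ * L) U1 U2 0 t - (Mu B (τ * L) L 0 : ℝ)‖ ^ 2 := by
        simp only [hg1, Gd]
        congr 2
        simp
      have h5 : |(St B (τ * L) U1 U2 0 t - (Mu B (τ * L) L 0 : ℝ)).re| ≤
          ‖St B (τ * L) U1 U2 0 t - (Mu B (τ * L) L 0 : ℝ)‖ := Complex.abs_re_le_norm _
      rw [Complex.sub_re, Complex.ofReal_re] at h5
      rw [h4]
      set y := ‖St B (τ * L) U1 U2 0 t - (Mu B (τ * L) L 0 : ℝ)‖
      have h6 : 3 * y ≤ 3 / 2 * K + 3 / 2 / K * y ^ 2 := by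
        have : 0 ≤ (K - y) ^ 2 / K := by positivity
        have e : (K - y) ^ 2 / K = K - 2 * y + 1 / K * y ^ 2 := by
          field_simp
          ring
        rw [e] at this
        have e2 : 3 / 2 / K * y ^ 2 = 3 / 2 * (1 / K * y ^ 2) := by ring
        rw [e2]
        linarith
      linarith [(abs_le.1 h5).1]
    have h4 : q * g2 t = (1 + 1 / η) * (2 * Rf 0 * g2 t) := by rw [hq]; ring
    have h5 : G t = (((ZL U1 U2).filter (fun s => |s.im - t| ≤ th (τ * L) N N0 κ1 Y0 L |(zz s).im|)).card : ℝ) := by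
      rw [hG]
      unfold nw
      simp only [one_mul]
      rw [Finset.sum_boole]
    rw [h4, h5]
    simp only [hg2, hE, hq]
    linarith
  -- integration
  have hfin : IsFiniteMeasure (volume.restrict S) := ⟨by
    rw [Measure.restrict_apply_univ]; exact lt_top_iff_ne_top.2 hSf⟩
  have hcI : ∀ f : ℝ → ℝ, Continuous f → IntegrableOn f S := fun f hf =>
    (hf.continuousOn.integrableOn_compact isCompact_Icc).mono_set hSI
  have hmono := setIntegral_mono_on (μ := volume) (s := S)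
    (f := fun t => (3 * Mu B (τ * L) L 0 - 3 / 2 * K - (1 + η) * Mb - q) - (3 / 2 / K) * g1 t - q * g2 t -
      (1 + η) * Dq Rf c B ε τ (4 * τ) T t)
    (g := fun t => 2 * G t + 10 * E t)
    (hcI _ (by fun_prop)) ((hni.const_mul 2).add ((hEi.mono_set hSI).const_mul 10)) hS hpt
  rw [integral_add (hni.const_mul 2) ((hEi.mono_set hSI).const_mul 10), integral_const_mul,
    integral_const_mul] at hmono
  have hI1 : IntegrableOn (fun _ : ℝ => (3 * Mu B (τ * L) L 0 - 3 / 2 * K - (1 + η) * Mb - q)) S := hcI _ continuous_const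
  have hI2 : IntegrableOn (fun t : ℝ => (3 / 2 / K) * g1 t) S := hcI _ (by fun_prop)
  have hI3 : IntegrableOn (fun t : ℝ => q * g2 t) S := hcI _ (by fun_prop)
  have hI4 : IntegrableOn (fun t : ℝ => (1 + η) * Dq Rf c B ε τ (4 * τ) T t) S := hcI _ (by fun_prop)
  have hI12 : IntegrableOn (fun t : ℝ => (3 * Mu B (τ * L) L 0 - 3 / 2 * K - (1 + η) * Mb - q) - (3 / 2 / K) * g1 t) S :=
    hI1.sub hI2
  have hI123 : IntegrableOn (fun t : ℝ => (3 * Mu B (τ * L) L 0 - 3 / 2 * K - (1 + η) * Mb - q) - (3 / 2 / K) * g1 t -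
    q * g2 t) S := hI12.sub hI3
  rw [integral_sub hI123 hI4, integral_sub hI12 hI3, integral_sub hI1 hI2,
    setIntegral_const, integral_const_mul, integral_const_mul, integral_const_mul, smul_eq_mul] at hmono
  -- bounds of the integrals
  have hb1 : ∫ t in S, g1 t ≤ CS * K ^ 2 * T := dev_int hW.cont hT hL0 hε2 hSM hSI
  have hb2 : ∫ t in S, g2 t ≤ 20 * τ * (CS * K ^ 2 * T) := by
    have hg20 : ∀ t, 0 ≤ g2 t := fun t => intervalIntegral.integral_nonneg h4τ0 fun x _ => by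
      unfold Gd; positivity
    have h1 : ∫ t in S, g2 t ≤ ∫ t in Set.Icc (T + L) (2 * T - L), g2 t :=
      setIntegral_mono_set (hg2c.continuousOn.integrableOn_compact isCompact_Icc)
        (Filter.Eventually.of_forall hg20) (Filter.Eventually.of_forall hSI)
    have h2 : ∫ t in Set.Icc (T + L) (2 * T - L), g2 t =
        ∫ x in (0:ℝ)..(4 * τ), ∫ t in (T + L)..(2 * T - L), Gd B (τ * L) L U1 U2 ((1 - ε) * L * x) t := by
      rw [integral_Icc_eq_integral_Ioc, ← intervalIntegral.integral_of_le hT]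
      refine MeasureTheory.intervalIntegral_intervalIntegral_swap ?_
      refine (hGc2.continuousOn.integrableOn_compact (K := Set.uIcc (T + L) (2 * T - L) ×ˢ Set.uIcc 0 (4 * τ)) ?_).mono_set ?_
      · exact isCompact_uIcc.prod isCompact_uIcc
      · exact Set.prod_mono Set.uIoc_subset_uIcc Set.uIoc_subset_uIcc
    have h3 : ∫ x in (0:ℝ)..(4 * τ), ∫ t in (T + L)..(2 * T - L), Gd B (τ * L) L U1 U2 ((1 - ε) * L * x) t ≤
        ∫ _x in (0:ℝ)..(4 * τ), 5 * (CS * K ^ 2 * T) := by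
      refine intervalIntegral.integral_mono_on h4τ0 ?_ (by simp) fun x hx => ?_
      · refine Continuous.intervalIntegrable ?_ _ _
        apply intervalIntegral.continuous_parametric_intervalIntegral_of_continuous'
        exact (Gd_cont hW.cont (τ * L) L U1 U2).comp (f := fun p : ℝ × ℝ => ((1 - ε) * L * p.1, p.2)) (by fun_prop)
      · have hx1 : x ≤ 1 := hx.2.trans h4τ
        have hΛ : 0 ≤ (1 - ε) * L := mul_nonneg (by linarith) hL0.le
        have h4 := hSM ((1 - ε) * L * x) (mul_nonneg hΛ hx.1) (by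
          calc (1 - ε) * L * x ≤ (1 - ε) * L * 1 := mul_le_mul_of_nonneg_left hx1 hΛ
            _ = _ := mul_one _)
        refine h4.trans ?_
        have h5 : (1 - ε) * L * x / (τ * L) ≤ 4 := by
          rw [div_le_iff₀ hτL]
          have h6 : (1 - ε) * L * x ≤ 1 * L * (4 * τ) := by
            have := hx.2
            have := hx.1
            gcongr
            linarith
          linarith
        have h6 : T * (1 + (1 - ε) * L * x / (τ * L)) ≤ T * 5 :=
          mul_le_mul_of_nonneg_left (by linarith) hT0.le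
        calc CS * K ^ 2 * (T * (1 + (1 - ε) * L * x / (τ * L))) ≤ CS * K ^ 2 * (T * 5) :=
              mul_le_mul_of_nonneg_left h6 (by positivity)
          _ = _ := by ring
    rw [intervalIntegral.integral_const, smul_eq_mul, sub_zero] at h3
    rw [h2] at h1
    refine h1.trans (h3.trans (le_of_eq ?_))
    ring
  have hb3 : ∫ t in S, E t ≤ ε2 * (N / τ * T) := by
    have h1 : ∫ t in S, E t ≤ ∫ t in Set.Icc (T + L) (2 * T - L), E t :=
      setIntegral_mono_set hEi (Filter.Eventually.of_forall hE0) (Filter.Eventually.of_forall hSI)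
    rw [integral_Icc_eq_integral_Ioc, ← intervalIntegral.integral_of_le hT] at h1
    exact h1.trans hERS
  have hc1 : (3 / 2 / K) * ∫ t in S, g1 t ≤ 3 / 2 * (CS * K * T) := by
    calc (3 / 2 / K) * ∫ t in S, g1 t ≤ (3 / 2 / K) * (CS * K ^ 2 * T) := mul_le_mul_of_nonneg_left hb1 (by positivity)
      _ = _ := by field_simp
  have hc2 : q * ∫ t in S, g2 t ≤ q * (20 * τ * (CS * K ^ 2 * T)) := mul_le_mul_of_nonneg_left hb2 hq0
  linarith

/-- the block inequality for the zeros with multiplicity -/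
lemma block_m {j : ℕ} {C N : ℝ}
    (hW : Wf j C N B) (hK : 0 < K) (hε2 : ε < 1 / 2) {L η1 N0 κ1 Y0 CS ε2 : ℝ} (hL : 10 ≤ L) (hT : T + L ≤ 2 * T - L)
    (hη0 : 0 ≤ η1)
    (hSM : ∀ u : ℝ, 0 ≤ u → u ≤ (1 - ε) * L →
      ∫ t in (T + L)..(2 * T - L), ‖St B (τ * L) U1 U2 u t - cexp (I * u * t) * (Mu B (τ * L) L u : ℝ)‖ ^ 2 ≤
      CS * K ^ 2 * (T * (1 + u / (τ * L))))
    (hERS : ∫ t in (T + L)..(2 * T - L), ∑ s ∈ Zf riemannZeta U1 U2, (mult riemannZeta s : ℝ) *
      err B (τ * L) N N0 κ1 Y0 L 0 η1 t (zz s) ≤ ε2 * (N / τ * T))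
    {S : Set ℝ} (hS : MeasurableSet S) (hSI : S ⊆ Set.Icc (T + L) (2 * T - L)) :
    volume.real S * (Mu B (τ * L) L 0 - 1 / 2 * K) - 1 / 2 * (CS * K * T) - ε2 * (N / τ * T) ≤
    ∫ t in S, nw (Zf riemannZeta U1 U2) (fun s => (mult riemannZeta s : ℝ))
      (fun s => th (τ * L) N N0 κ1 Y0 L |(zz s).im|) t := by
  classical
  have hL0 : 0 < L := by linarith
  have hSf : volume S ≠ ⊤ := ne_top_of_le_ne_top (by simp) (measure_mono hSI)
  set G : ℝ → ℝ := nw (Zf riemannZeta U1 U2) (fun s => (mult riemannZeta s : ℝ))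
    (fun s => th (τ * L) N N0 κ1 Y0 L |(zz s).im|) with hG
  have hni : IntegrableOn G S := (count_w _ _ _ S hSf).1
  set E : ℝ → ℝ := fun t => ∑ s ∈ Zf riemannZeta U1 U2, (mult riemannZeta s : ℝ) *
      err B (τ * L) N N0 κ1 Y0 L 0 η1 t (zz s) with hE
  have hEi : IntegrableOn E (Set.Icc (T + L) (2 * T - L)) := by
    refine integrable_finsetSum _ fun s _ => ?_
    exact (err_int hW.cont _ _ _ _ _ _ _ _ hη0 _ _ _).const_mul _
  have hE0 : ∀ t, 0 ≤ E t := fun t => Finset.sum_nonneg fun s _ =>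
    mul_nonneg (Nat.cast_nonneg _) (err_nonneg _ _ _ _ _ _ _ _ _ hη0 _ _)
  set g1 : ℝ → ℝ := fun t => Gd B (τ * L) L U1 U2 0 t with hg1
  have hg1c : Continuous g1 := by
    have h1 := (Gd_cont hW.cont (τ * L) L U1 U2).comp (f := fun t : ℝ => ((0:ℝ), t)) (by fun_prop)
    simpa only [Function.comp_def] using h1
  have hpt : ∀ t ∈ S, (Mu B (τ * L) L 0 - 1 / 2 * K) - (1 / 2 / K) * g1 t ≤ G t + E t := by
    intro t ht
    have h1 := pw_m (B := B) (a := τ * L) (L := L) (N := N) (η1 := η1) (N0 := N0) (κ1 := κ1) (Y0 := Y0)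
      (t := t) (U1 := U1) (U2 := U2) hL0.le hη0
    have h3 : Mu B (τ * L) L 0 - 1 / 2 * K - (1 / 2 / K) * g1 t ≤ (St B (τ * L) U1 U2 0 t).re := by
      have h4 : g1 t = ‖St B (τ * L) U1 U2 0 t - (Mu B (τ * L) L 0 : ℝ)‖ ^ 2 := by
        simp only [hg1, Gd]
        congr 2
        simp
      have h5 : |(St B (τ * L) U1 U2 0 t - (Mu B (τ * L) L 0 : ℝ)).re| ≤
          ‖St B (τ * L) U1 U2 0 t - (Mu B (τ * L) L 0 : ℝ)‖ := Complex.abs_re_le_norm _
      rw [Complex.sub_re, Complex.ofReal_re] at h5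
      rw [h4]
      set y := ‖St B (τ * L) U1 U2 0 t - (Mu B (τ * L) L 0 : ℝ)‖
      have h6 : y ≤ 1 / 2 * K + 1 / 2 / K * y ^ 2 := by
        have : 0 ≤ (K - y) ^ 2 / K := by positivity
        have e : (K - y) ^ 2 / K = K - 2 * y + 1 / K * y ^ 2 := by
          field_simp
          ring
        rw [e] at this
        have e2 : 1 / 2 / K * y ^ 2 = 1 / 2 * (1 / K * y ^ 2) := by ring
        rw [e2]
        linarith
      linarith [(abs_le.1 h5).1]
    have h6 := (abs_le.1 h1).2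
    simp only [hG, hE]
    linarith
  have hfin : IsFiniteMeasure (volume.restrict S) := ⟨by
    rw [Measure.restrict_apply_univ]; exact lt_top_iff_ne_top.2 hSf⟩
  have hcI : ∀ f : ℝ → ℝ, Continuous f → IntegrableOn f S := fun f hf =>
    (hf.continuousOn.integrableOn_compact isCompact_Icc).mono_set hSI
  have hmono := setIntegral_mono_on (μ := volume) (s := S)
    (f := fun t => (Mu B (τ * L) L 0 - 1 / 2 * K) - (1 / 2 / K) * g1 t)
    (g := fun t => G t + E t)
    (hcI _ (by fun_prop)) (hni.add (hEi.mono_set hSI)) hS hpt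
  rw [integral_add hni (hEi.mono_set hSI)] at hmono
  have hI1 : IntegrableOn (fun _ : ℝ => (Mu B (τ * L) L 0 - 1 / 2 * K)) S := hcI _ continuous_const
  have hI2 : IntegrableOn (fun t : ℝ => (1 / 2 / K) * g1 t) S := hcI _ (by fun_prop)
  rw [integral_sub hI1 hI2, setIntegral_const, integral_const_mul, smul_eq_mul] at hmono
  have hb1 : ∫ t in S, g1 t ≤ CS * K ^ 2 * T := dev_int hW.cont hT hL0 hε2 hSM hSI
  have hb3 : ∫ t in S, E t ≤ ε2 * (N / τ * T) := by
    have h1 : ∫ t in S, E t ≤ ∫ t in Set.Icc (T + L) (2 * T - L), E t :=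
      setIntegral_mono_set hEi (Filter.Eventually.of_forall hE0) (Filter.Eventually.of_forall hSI)
    rw [integral_Icc_eq_integral_Ioc, ← intervalIntegral.integral_of_le hT] at h1
    exact h1.trans hERS
  have hc1 : (1 / 2 / K) * ∫ t in S, g1 t ≤ 1 / 2 * (CS * K * T) := by
    calc (1 / 2 / K) * ∫ t in S, g1 t ≤ (1 / 2 / K) * (CS * K ^ 2 * T) := mul_le_mul_of_nonneg_left hb1 (by positivity)
      _ = _ := by field_simp
  linarith

/-- the places with many zeros -/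
lemma block_dense {j : ℕ} {C N : ℝ}
    (hW : Wf j C N B) (hε2 : ε < 1 / 2) {L η1 N0 κ1 Y0 CS ε2 M1 : ℝ} (hL : 10 ≤ L) (hT : T + L ≤ 2 * T - L)
    (hη0 : 0 ≤ η1)
    (hSM : ∀ u : ℝ, 0 ≤ u → u ≤ (1 - ε) * L →
      ∫ t in (T + L)..(2 * T - L), ‖St B (τ * L) U1 U2 u t - cexp (I * u * t) * (Mu B (τ * L) L u : ℝ)‖ ^ 2 ≤
      CS * K ^ 2 * (T * (1 + u / (τ * L))))
    (hERS : ∫ t in (T + L)..(2 * T - L), ∑ s ∈ Zf riemannZeta U1 U2, (mult riemannZeta s : ℝ) *
      err B (τ * L) N N0 κ1 Y0 L 0 η1 t (zz s) ≤ ε2 * (N / τ * T))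
    (hM1 : 0 < M1) (hMu : 2 * Mu B (τ * L) L 0 ≤ M1)
    {S : Set ℝ} (hS : MeasurableSet S) (hSI : S ⊆ Set.Icc (T + L) (2 * T - L))
    (hbig : ∀ t ∈ S, M1 ≤ nw (Zf riemannZeta U1 U2) (fun s => (mult riemannZeta s : ℝ))
      (fun s => th (τ * L) N N0 κ1 Y0 L |(zz s).im|) t) :
    ∫ t in S, nw (Zf riemannZeta U1 U2) (fun s => (mult riemannZeta s : ℝ))
      (fun s => th (τ * L) N N0 κ1 Y0 L |(zz s).im|) t ≤ 8 / M1 * (CS * K ^ 2 * T) + 4 * (ε2 * (N / τ * T)) := by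
  classical
  have hL0 : 0 < L := by linarith
  have hSf : volume S ≠ ⊤ := ne_top_of_le_ne_top (by simp) (measure_mono hSI)
  set G : ℝ → ℝ := nw (Zf riemannZeta U1 U2) (fun s => (mult riemannZeta s : ℝ))
    (fun s => th (τ * L) N N0 κ1 Y0 L |(zz s).im|) with hG
  have hni : IntegrableOn G S := (count_w _ _ _ S hSf).1
  set E : ℝ → ℝ := fun t => ∑ s ∈ Zf riemannZeta U1 U2, (mult riemannZeta s : ℝ) *
      err B (τ * L) N N0 κ1 Y0 L 0 η1 t (zz s) with hE
  have hEi : IntegrableOn E (Set.Icc (T + L) (2 * T - L)) := by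
    refine integrable_finsetSum _ fun s _ => ?_
    exact (err_int hW.cont _ _ _ _ _ _ _ _ hη0 _ _ _).const_mul _
  have hE0 : ∀ t, 0 ≤ E t := fun t => Finset.sum_nonneg fun s _ =>
    mul_nonneg (Nat.cast_nonneg _) (err_nonneg _ _ _ _ _ _ _ _ _ hη0 _ _)
  set g1 : ℝ → ℝ := fun t => Gd B (τ * L) L U1 U2 0 t with hg1
  have hg1c : Continuous g1 := by
    have h1 := (Gd_cont hW.cont (τ * L) L U1 U2).comp (f := fun t : ℝ => ((0:ℝ), t)) (by fun_prop)
    simpa only [Function.comp_def] using h1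
  have hpt : ∀ t ∈ S, G t ≤ 8 / M1 * g1 t + 4 * E t := by
    intro t ht
    have h1 := pw_m (B := B) (a := τ * L) (L := L) (N := N) (η1 := η1) (N0 := N0) (κ1 := κ1) (Y0 := Y0)
      (t := t) (U1 := U1) (U2 := U2) hL0.le hη0
    have h4 : g1 t = ‖St B (τ * L) U1 U2 0 t - (Mu B (τ * L) L 0 : ℝ)‖ ^ 2 := by
      simp only [hg1, Gd]
      congr 2
      simp
    have h5 : |(St B (τ * L) U1 U2 0 t - (Mu B (τ * L) L 0 : ℝ)).re| ≤
        ‖St B (τ * L) U1 U2 0 t - (Mu B (τ * L) L 0 : ℝ)‖ := Complex.abs_re_le_norm _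
    rw [Complex.sub_re, Complex.ofReal_re] at h5
    rw [h4]
    set y := ‖St B (τ * L) U1 U2 0 t - (Mu B (τ * L) L 0 : ℝ)‖
    have hy0 : 0 ≤ y := norm_nonneg _
    have h6 := (abs_le.1 h5).2
    have h7 := (abs_le.1 h1).1
    have hE' := hE0 t
    have hb := hbig t ht
    have h8 : G t ≤ Mu B (τ * L) L 0 + y + E t := by
      simp only [hG, hE]
      linarith
    have h9 : G t ≤ 2 * y + 2 * E t := by linarith
    by_cases hc : M1 / 4 ≤ y
    · have h10 : y ≤ 4 / M1 * y ^ 2 := by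
        have : M1 / 4 * y ≤ y * y := mul_le_mul_of_nonneg_right hc hy0
        rw [div_mul_eq_mul_div, le_div_iff₀ hM1]
        nlinarith
      have e : 8 / M1 * y ^ 2 = 2 * (4 / M1 * y ^ 2) := by ring
      rw [e]
      linarith
    · push Not at hc
      have h10 : M1 / 4 ≤ E t := by linarith
      have h11 : 0 ≤ 8 / M1 * y ^ 2 := by positivity
      linarith
  have hcI : ∀ f : ℝ → ℝ, Continuous f → IntegrableOn f S := fun f hf =>
    (hf.continuousOn.integrableOn_compact isCompact_Icc).mono_set hSI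
  have hI2 : IntegrableOn (fun t : ℝ => 8 / M1 * g1 t) S := hcI _ (by fun_prop)
  have hmono := setIntegral_mono_on (μ := volume) (s := S)
    (f := fun t => G t)
    (g := fun t => 8 / M1 * g1 t + 4 * E t) hni
    (hI2.add ((hEi.mono_set hSI).const_mul 4)) hS hpt
  rw [integral_add hI2 ((hEi.mono_set hSI).const_mul 4), integral_const_mul, integral_const_mul] at hmono
  have hb1 : ∫ t in S, g1 t ≤ CS * K ^ 2 * T := dev_int hW.cont hT hL0 hε2 hSM hSI
  have hb3 : ∫ t in S, E t ≤ ε2 * (N / τ * T) := by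
    have h1 : ∫ t in S, E t ≤ ∫ t in Set.Icc (T + L) (2 * T - L), E t :=
      setIntegral_mono_set hEi (Filter.Eventually.of_forall hE0) (Filter.Eventually.of_forall hSI)
    rw [integral_Icc_eq_integral_Ioc, ← intervalIntegral.integral_of_le hT] at h1
    exact h1.trans hERS
  have hc1 : 8 / M1 * ∫ t in S, g1 t ≤ 8 / M1 * (CS * K ^ 2 * T) :=
    mul_le_mul_of_nonneg_left hb1 (by positivity)
  linarith

end

end

end Pool.Agent.J4.H62.LD
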