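import Pool.Agent.Y745.SW.Blk5
import Pool.Agent.J4.H62.LD.BlkD

set_option autoImplicit false

/-! The final computations for the block theorem. -/

namespace Pool.Agent.J4.H62.LD

open Filter Topology MeasureTheory Complex H370 TH803UC TH803CL Pool.Agent.Y745.SW

noncomputable section

lemma calc_d {A T N τ ε c R0 R1 CD CS C K q η εs ε2 M I2 Mu0 Z DD cnt L r P : ℝ}
    (hA0 : 0 ≤ A) (hAT : A ≤ T) (hN : 1 ≤ N) (hτ : 0 < τ) (hτ1 : τ ≤ 1) (hε : 0 < ε) (hε1 : ε ≤ 1)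
    (hc : R0 + 2 * R1 = c) (hc2 : c ≤ 3 / 2) (hR0 : 0 ≤ R0) (hR1 : 0 ≤ R1) (hCD : 0 < CD) (hCS : 0 < CS) (hC : 1 ≤ C)
    (hK : K = C * N) (hη : η = ε / 64) (hεs : εs = ε / 64) (hε2 : ε2 = ε / (160 * Real.pi))
    (hM : M = N / (Real.pi * τ)) (hI0 : 0 ≤ I2) (hI : I2 ≤ N / Real.pi) (hMu : (1 - ε / 64) * M ≤ Mu0)
    (hZ : Z ≤ 2 * (1 - εs) / τ * R1 * I2 + CD * I2 + 1) (hDD : DD ≤ A * Z + T) (hq : 0 ≤ q)
    (h1 : τ * (16 * Real.pi * (C * (1 + CS))) ≤ ε) (h2 : τ * (16 * Real.pi * (q + 4)) ≤ ε)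
    (h3 : τ * (320 * Real.pi * (q * CS * C ^ 2 * N)) ≤ ε) (h4 : τ * (32 * CD) ≤ ε) (hL : 0 < L)
    (hcnt : 0 ≤ cnt) (hr : r ≤ N / τ) (hP : P ≤ 2 * (r / L) * cnt + ε2 * (N / τ * T))
    (hmain : A * (3 * Mu0 - 3 / 2 * K - (1 + η) * (R0 / ((1 - εs) * τ) * I2) - q) - 3 / 2 * (CS * K * T) -
      q * (20 * τ * (CS * K ^ 2 * T)) - (1 + η) * DD - 10 * (ε2 * (N / τ * T)) ≤ 2 * P) :
    ((3 - c) / 2 * A - ε * T) * (L / (2 * Real.pi)) ≤ cnt := by
  have hpi := Real.pi_pos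
  have hT0 : 0 ≤ T := hA0.trans hAT
  have hN0 : 0 < N := by linarith
  have hM0 : 0 < M := by rw [hM]; positivity
  have hK0 : 0 < K := by rw [hK]; positivity
  have hτL : 0 < τ * L := mul_pos hτ hL
  set X := 4 * (r / L) * cnt + 2 * (ε2 * (N / τ * T)) + 1 / 2 * (A * K) + 1 / 2 * (CS * K * T) - A * Mu0 with hX
  have key := final_calc (A := A) (T := T) (N := N) (τ := τ) (ε := ε) (c := c) (R0 := R0)
      (R1 := R1) (CD := CD) (CS := CS) (C := C) (K := K) (q := q) (η := η) (εs := εs)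
      (ε2 := ε2) (M := M) (I2 := I2) (Mu0 := Mu0) (Z := Z) (DD := DD) (L := L)
      (count := X / (2 * (N / (τ * L)))) (X := X)
      hA0 hAT hN hτ hτ1 hε hε1 hc hc2 hR0 hR1 hCD hCS hC hK hη hεs hε2 hM hI0 hI hMu hZ hDD hq h1 h2 h3 h4 hL
      (by field_simp) (by rw [hX]; linarith)
  have hpos : 0 < 2 * (N / (τ * L)) := by positivity
  rw [le_div_iff₀ hpos] at key
  have e1 : ((2 - c) * A - ε * T) * (L / (2 * Real.pi)) * (2 * (N / (τ * L))) = M * ((2 - c) * A - ε * T) := by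
    rw [hM]; field_simp
  rw [e1] at key
  have hb1 : K * (1 + CS) ≤ ε / 16 * M := by
    rw [hK, hM]
    rw [mul_div_assoc', le_div_iff₀ (by positivity)]
    have := mul_le_mul_of_nonneg_right h1 hN0.le
    have e : C * N * (1 + CS) * (Real.pi * τ) = τ * (16 * Real.pi * (C * (1 + CS))) * N / 16 := by ring
    rw [e]
    linarith
  have hb2 : T * (K * (1 + CS)) ≤ T * (ε / 16 * M) := mul_le_mul_of_nonneg_left hb1 hT0
  have hb3 : A * K ≤ T * K := mul_le_mul_of_nonneg_right hAT hK0.le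
  have hb4 : 2 * (ε2 * (N / τ * T)) = ε / 80 * (M * T) := by
    rw [hε2, hM]
    field_simp
    ring
  have hb5 : A * ((1 - ε / 64) * M) ≤ A * Mu0 := mul_le_mul_of_nonneg_left hMu hA0
  have hb6 : 4 * (r / L) * cnt ≤ 4 * (N / (τ * L)) * cnt := by
    have : r / L ≤ N / (τ * L) := by
      rw [← div_div]
      exact div_le_div_of_nonneg_right hr hL.le
    gcongr
  have hb7 : A * M ≤ T * M := mul_le_mul_of_nonneg_right hAT hM0.le
  have hb8 : ε * (A * M) ≤ ε * (T * M) := mul_le_mul_of_nonneg_left hb7 hε.le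
  have hb9 : 0 ≤ ε * (T * M) := by positivity
  have hfin : M * ((3 - c) * A - 2 * (ε * T)) ≤ 4 * (N / (τ * L)) * cnt := by
    rw [hX, hb4] at key
    nlinarith
  have e2 : ((3 - c) / 2 * A - ε * T) * (L / (2 * Real.pi)) =
      (τ * L / (4 * N)) * (M * ((3 - c) * A - 2 * (ε * T))) := by
    rw [hM]; field_simp; ring
  have e3 : cnt = (τ * L / (4 * N)) * (4 * (N / (τ * L)) * cnt) := by field_simp
  rw [e2, e3]
  exact mul_le_mul_of_nonneg_left hfin (by positivity)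

lemma calc_m {A T N τ ε CS C K ε2 M Mu0 cnt L r P : ℝ}
    (hA0 : 0 ≤ A) (hAT : A ≤ T) (hN : 1 ≤ N) (hτ : 0 < τ) (hε : 0 < ε)
    (hCS : 0 < CS) (hC : 1 ≤ C)
    (hK : K = C * N) (hε2 : ε2 = ε / (160 * Real.pi))
    (hM : M = N / (Real.pi * τ)) (hMu : (1 - ε / 64) * M ≤ Mu0)
    (h1 : τ * (16 * Real.pi * (C * (1 + CS))) ≤ ε) (hL : 0 < L)
    (hcnt : 0 ≤ cnt) (hr : r ≤ N / τ) (hP : P ≤ 2 * (r / L) * cnt + ε2 * (N / τ * T))
    (hmain : A * (Mu0 - 1 / 2 * K) - 1 / 2 * (CS * K * T) - ε2 * (N / τ * T) ≤ P) :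
    (A - ε * T) * (L / (2 * Real.pi)) ≤ cnt := by
  have hpi := Real.pi_pos
  have hT0 : 0 ≤ T := hA0.trans hAT
  have hN0 : 0 < N := by linarith
  have hM0 : 0 < M := by rw [hM]; positivity
  have hK0 : 0 < K := by rw [hK]; positivity
  have hτL : 0 < τ * L := mul_pos hτ hL
  have hb1 : K * (1 + CS) ≤ ε / 16 * M := by
    rw [hK, hM]
    rw [mul_div_assoc', le_div_iff₀ (by positivity)]
    have := mul_le_mul_of_nonneg_right h1 hN0.le
    have e : C * N * (1 + CS) * (Real.pi * τ) = τ * (16 * Real.pi * (C * (1 + CS))) * N / 16 := by ring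
    rw [e]
    linarith
  have hb2 : T * (K * (1 + CS)) ≤ T * (ε / 16 * M) := mul_le_mul_of_nonneg_left hb1 hT0
  have hb3 : A * K ≤ T * K := mul_le_mul_of_nonneg_right hAT hK0.le
  have hb4 : 2 * (ε2 * (N / τ * T)) = ε / 80 * (M * T) := by
    rw [hε2, hM]
    field_simp
    ring
  have hb5 : A * ((1 - ε / 64) * M) ≤ A * Mu0 := mul_le_mul_of_nonneg_left hMu hA0
  have hb6 : 2 * (r / L) * cnt ≤ 2 * (N / (τ * L)) * cnt := by
    have : r / L ≤ N / (τ * L) := by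
      rw [← div_div]
      exact div_le_div_of_nonneg_right hr hL.le
    gcongr
  have hb7 : A * M ≤ T * M := mul_le_mul_of_nonneg_right hAT hM0.le
  have hb8 : ε * (A * M) ≤ ε * (T * M) := mul_le_mul_of_nonneg_left hb7 hε.le
  have hb9 : 0 ≤ ε * (T * M) := by positivity
  have hfin : M * (A - ε * T) ≤ 2 * (N / (τ * L)) * cnt := by
    nlinarith
  have e2 : (A - ε * T) * (L / (2 * Real.pi)) = (τ * L / (2 * N)) * (M * (A - ε * T)) := by
    rw [hM]; field_simp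
  have e3 : cnt = (τ * L / (2 * N)) * (2 * (N / (τ * L)) * cnt) := by field_simp
  rw [e2, e3]
  exact mul_le_mul_of_nonneg_left hfin (by positivity)

lemma calc_dense {T N N0 τ ε CS C K ε2 M1 L r D P : ℝ}
    (hT : 0 < T) (hN : 1 ≤ N) (hNN : 2 * N0 ≤ N) (hτ : 0 < τ) (hε : 0 < ε)
    (hCS : 0 < CS) (hC : 1 ≤ C)
    (hK : K = C * N) (hε2 : ε2 = ε / (160 * Real.pi)) (hr : r = (N - N0) / τ)
    (hM1 : 32 * τ * CS * C ^ 2 * N / ε ≤ M1) (hM0 : 0 < M1) (hL : 0 < L)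
    (hD : D * (r / L) ≤ P) (hmain : P ≤ 8 / M1 * (CS * K ^ 2 * T) + 4 * (ε2 * (N / τ * T))) :
    D ≤ ε * (T * L) := by
  have hpi := Real.pi_gt_three
  have hN0 : 0 < N := by linarith
  have hr0 : N / (2 * τ) ≤ r := by
    rw [hr, div_le_div_iff₀ (by positivity) hτ]
    nlinarith
  have hrp : 0 < r := lt_of_lt_of_le (by positivity) hr0
  by_contra hcon
  push Not at hcon
  have hTL : 0 < ε * (T * L) := by positivity
  have hDpos : 0 < D := hTL.trans hcon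
  have h1 : ε * (T * L) * (N / (2 * τ) / L) < D * (r / L) := by
    have h2 : N / (2 * τ) / L ≤ r / L := div_le_div_of_nonneg_right hr0 hL.le
    have h3 : 0 < N / (2 * τ) / L := by positivity
    calc ε * (T * L) * (N / (2 * τ) / L) < D * (N / (2 * τ) / L) := mul_lt_mul_of_pos_right hcon h3
      _ ≤ D * (r / L) := mul_le_mul_of_nonneg_left h2 hDpos.le
  have e1 : ε * (T * L) * (N / (2 * τ) / L) = ε * (T * (N / τ)) / 2 := by field_simp
  have h4 : 8 / M1 * (CS * K ^ 2 * T) ≤ ε * (T * (N / τ)) / 4 := by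
    rw [div_le_iff₀ hε] at hM1
    rw [hK, div_mul_eq_mul_div, div_le_iff₀ hM0]
    have e2 : ε * (T * (N / τ)) / 4 * M1 = (M1 * ε) * (T * N / (4 * τ)) := by ring
    rw [e2]
    calc 8 * (CS * (C * N) ^ 2 * T) = 32 * τ * CS * C ^ 2 * N * (T * N / (4 * τ)) := by field_simp; ring
      _ ≤ _ := mul_le_mul_of_nonneg_right hM1 (by positivity)
  have h5 : 4 * (ε2 * (N / τ * T)) ≤ ε * (T * (N / τ)) / 4 := by
    have e2 : 4 * (ε2 * (N / τ * T)) = ε * (T * (N / τ)) / (40 * Real.pi) := by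
      rw [hε2]; field_simp; ring
    rw [e2]
    refine div_le_div_of_nonneg_left (by positivity) (by norm_num) (by linarith)
  linarith

end

end Pool.Agent.J4.H62.LD
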