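import Pool.Agent.Y627.SW.ER1
import Pool.Agent.Y655.SW.Ers0
import Pool.Agent.TH803.UC.Dyad

set_option autoImplicit false

/-! The total cost of the zeros, with a bound for the active zones of the zeros far from the line. -/

namespace Pool.Agent.J4.H62.LD

open Filter Topology MeasureTheory Complex H370 Pool.Agent.Y745.SW Pool.Agent.Y627.SW

noncomputable section

/-- ER1 with a bound for `κ1` -/
def P_ER1x : Prop := ∀ κ : ℝ, 0 < κ → ∃ (j : ℕ) (κ1 τ0 : ℝ), 0 < κ1 ∧ κ1 ≤ κ / 2 ∧ 0 < τ0 ∧ τ0 ≤ 1 ∧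
  ∀ C : ℝ, 1 ≤ C → ∃ C2 : ℝ, 0 < C2 ∧ ∀ Y0 ε : ℝ, 1 ≤ Y0 → 0 < ε → ∃ N0 N1 : ℝ, 1 ≤ N0 ∧ 1 ≤ N1 ∧ 2 * N0 ≤ N1 ∧
  ∀ N τ : ℝ, N1 ≤ N → 0 < τ → τ ≤ τ0 → ∀ᶠ L : ℝ in atTop, ∀ d η1 : ℝ, 0 ≤ d → d ≤ 1 / L → 0 ≤ η1 → η1 ≤ 1 →
  ∀ B : ℝ → ℝ, Wf j C N B → ∀ z : ℂ, |z.im| ≤ 1 / 2 →
    Integrable (fun t : ℝ => err B (τ * L) N N0 κ1 Y0 L d η1 t z) ∧
    ∫ t : ℝ, err B (τ * L) N N0 κ1 Y0 L d η1 t z ≤
      N / (τ * L) * (3 * η1 + ε + (if Y0 ≤ |z.im| * L then C2 * Real.exp (κ * (|z.im| * L) / 2) else 0))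

theorem er1x : P_ER1x := by
  intro κ hκ
  set κ1 := κ / 4 with hκ1
  have hκ1p : 0 < κ1 := by rw [hκ1]; linarith
  refine ⟨⌈2 / κ1⌉₊ + 2, κ1, min (κ / 4) (1 / 4), hκ1p, by rw [hκ1]; linarith, lt_min (by linarith) (by norm_num),
    (min_le_right _ _).trans (by norm_num), ?_⟩
  have hj : 2 ≤ κ1 * (⌈2 / κ1⌉₊ : ℝ) := by
    have := Nat.le_ceil (2 / κ1)
    rw [div_le_iff₀ hκ1p] at this
    linarith
  intro C hC
  refine ⟨87 * C, by linarith, ?_⟩
  intro Y0 ε hY0 hε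
  set D := C * Real.exp Y0 with hD
  have hD0 : 0 < D := by positivity
  set N0 := 1 + 36 * D / ε with hN0
  have hN0p : 1 ≤ N0 := by rw [hN0]; have : 0 ≤ 36 * D / ε := by positivity
                           linarith
  set A := 6 * (4 * (1 + D) * Real.exp Y0) * (N0 + 1) with hA
  set A' := 24 * (4 * D * Real.exp Y0) with hA'
  have hA0 : 0 ≤ A := by positivity
  have hA'0 : 0 ≤ A' := by positivity
  set N1 := 2 * N0 + A / ε + A' / ε with hN1
  have hAε : 0 ≤ A / ε := by positivity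
  have hA'ε : 0 ≤ A' / ε := by positivity
  refine ⟨N0, N1, hN0p, by linarith, by linarith, ?_⟩
  intro N τ hN hτ hτ'
  have hτ4 : τ ≤ 1 / 4 := hτ'.trans (min_le_right _ _)
  have hτκ : τ ≤ κ / 4 := hτ'.trans (min_le_left _ _)
  have hlim : Tendsto (fun L : ℝ => ((N / τ + Y0) / L) ^ 2) atTop (𝓝 0) := by
    have h1 : Tendsto (fun L : ℝ => (N / τ + Y0) / L) atTop (𝓝 0) :=
      tendsto_const_nhds.div_atTop tendsto_id
    have h2 := h1.pow 2
    simpa using h2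
  have hlim2 : Tendsto (fun L : ℝ => 36 * (1 + D) * ((N / τ + Y0) / L) ^ 2) atTop (𝓝 0) := by
    have := hlim.const_mul (36 * (1 + D))
    simpa using this
  filter_upwards [eventually_gt_atTop (0 : ℝ), hlim.eventually_le_const (show (0:ℝ) < 1 by norm_num),
    hlim2.eventually_le_const hε] with L hL hL1 hL2
  intro d η1 hd hd' hη hη' B W z hz
  by_cases hzY : Y0 ≤ |z.im| * L
  · rw [if_pos hzY]
    have h := caseB (N0 := N0) hC W hκ hκ1 hj hY0 (by linarith) hτ hτ4 hτκ hL hd hd' hη hη' z hz hzY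
    refine ⟨h.1, h.2.trans ?_⟩
    have hpos : 0 ≤ N / (τ * L) := div_nonneg (by linarith) (by positivity)
    apply mul_le_mul_of_nonneg_left _ hpos
    linarith
  · rw [if_neg hzY, add_zero]
    push Not at hzY
    have hN0' : 36 * D ≤ ε * N0 := by
      have : ε * N0 = ε + 36 * D := by rw [hN0]; field_simp
      linarith
    have hmono : ε * N1 ≤ ε * N := mul_le_mul_of_nonneg_left hN hε.le
    have hexpand : ε * N1 = ε * (2 * N0) + A + A' := by
      rw [hN1]; field_simp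
    have hp : 0 ≤ ε * (2 * N0) := by positivity
    exact caseA hC W (by omega) hY0 hε hN0p hN0' (by linarith) (by linarith) (by linarith)
      hτ hτ4 hL hL1 hL2 hd hd' hη z hz hzY

/-- the total cost of the zeros, and the active zones of the zeros far from the line -/
def P_ERSx : Prop := ∃ (j : ℕ) (τ0 : ℝ), 0 < τ0 ∧ τ0 ≤ 1 ∧ ∀ C : ℝ, 1 ≤ C → ∀ ε : ℝ, 0 < ε →
  ∃ κ1 Y0 η1 N0 N1 : ℝ, 1 ≤ Y0 ∧ 0 < η1 ∧ η1 ≤ 1 ∧ 1 ≤ N0 ∧ 1 ≤ N1 ∧ 2 * N0 ≤ N1 ∧
  ∀ N τ : ℝ, N1 ≤ N → 0 < τ → τ ≤ τ0 → ∀ B : ℝ → ℝ, Wf j C N B → ∀ᶠ T : ℝ in atTop, ∀ U1 U2 : ℝ,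
    T ≤ U1 → U2 ≤ 2 * T → (∀ t1 t2 : ℝ, t1 ≤ t2 →
    ∫ t in t1..t2, ∑ s ∈ Zf riemannZeta U1 U2, (mult riemannZeta s : ℝ) *
      err B (τ * Real.log T) N N0 κ1 Y0 (Real.log T) 0 η1 t (zz s) ≤ ε * (N / τ * T)) ∧
    ∑ s ∈ (Zf riemannZeta U1 U2).filter (fun s => Y0 ≤ |(zz s).im| * Real.log T),
      (mult riemannZeta s : ℝ) * (2 * th (τ * Real.log T) N N0 κ1 Y0 (Real.log T) |(zz s).im|) ≤
      ε * (N / τ * T)

lemma exp_choice {a b κ : ℝ} (ha : 0 < a) (hb : 0 < b) (hκ : 0 < κ) {Y : ℝ}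
    (h : 2 / κ * Real.log (a / b) ≤ Y) : a * Real.exp (-(κ * Y / 2)) ≤ b := by
  have e1 : Real.log (a / b) ≤ κ * Y / 2 := by
    calc Real.log (a / b) = κ * (2 / κ * Real.log (a / b)) / 2 := by field_simp
      _ ≤ κ * Y / 2 := by gcongr
  have e2 : a / b ≤ Real.exp (κ * Y / 2) := by
    rw [← Real.log_le_iff_le_exp (by positivity)]; exact e1
  rw [Real.exp_neg, ← div_eq_mul_inv, div_le_iff₀ (Real.exp_pos _)]
  rw [div_le_iff₀ hb] at e2
  linarith

theorem ersx : P_ERSx := by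
  classical
  obtain ⟨κ, C', T0, hκ, hC', hT0, hd⟩ := TH803UC.dens_zeta
  obtain ⟨j, κ1, τ0, hκ1, hκ12, hτ0, hτ1, h2⟩ := er1x κ hκ
  refine ⟨j, τ0, hτ0, hτ1, fun C hC ε hε => ?_⟩
  obtain ⟨C2, hC2, h3⟩ := h2 C hC
  obtain ⟨Y0, hY0⟩ : ∃ Y0 : ℝ, Y0 = max 1 (max (2 / κ * Real.log (C2 / (ε / (3 * C'))))
    (2 / κ * Real.log (4 * C' / ε))) := ⟨_, rfl⟩
  have hY1 : 1 ≤ Y0 := by rw [hY0]; exact le_max_left _ _
  have hY2 : C2 * Real.exp (-(κ * Y0 / 2)) ≤ ε / (3 * C') :=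
    exp_choice hC2 (by positivity) hκ (by
      rw [hY0]; exact (le_max_left _ _).trans (le_max_right _ _))
  have hY3 : 4 * C' * Real.exp (-(κ * Y0 / 2)) ≤ ε :=
    exp_choice (by positivity) hε hκ (by
      rw [hY0]; exact (le_max_right _ _).trans (le_max_right _ _))
  obtain ⟨η1, hη1⟩ : ∃ η1 : ℝ, η1 = min 1 (ε / (9 * C')) := ⟨_, rfl⟩
  have hη0 : 0 < η1 := by rw [hη1]; exact lt_min one_pos (by positivity)
  have hηa : η1 ≤ 1 := by rw [hη1]; exact min_le_left _ _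
  have hηb : 3 * η1 ≤ ε / (3 * C') := by
    have : η1 ≤ ε / (9 * C') := by rw [hη1]; exact min_le_right _ _
    calc 3 * η1 ≤ 3 * (ε / (9 * C')) := by gcongr
      _ = _ := by field_simp; ring
  obtain ⟨N0, N1, hN0, hN1, hNN, h4⟩ := h3 Y0 (ε / (3 * C')) hY1 (by positivity)
  refine ⟨κ1, Y0, η1, N0, N1, hY1, hη0, hηa, hN0, hN1, hNN, ?_⟩
  intro N τ hN hτ hττ B hB
  have h5 := Real.tendsto_log_atTop.eventually (h4 N τ hN hτ hττ)
  filter_upwards [h5, eventually_ge_atTop T0] with T h6 hT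
  intro U1 U2 hU1 hU2
  have hT10 : 10 ≤ T := hT0.trans hT
  have hL : 0 < Real.log T := Real.log_pos (by linarith)
  have hN0' : 0 < N := by linarith
  obtain ⟨L, hLd⟩ : ∃ L : ℝ, L = Real.log T := ⟨_, rfl⟩
  have hdT := hd T hT
  rw [← hLd] at h6 hL hdT ⊢
  have hsub : Zf riemannZeta U1 U2 ⊆ Zf riemannZeta T (2 * T) :=
    Pool.Agent.Y655.SW.zf_sub (by linarith) hU1 hU2
  have h9 : ∑ s ∈ Zf riemannZeta U1 U2, (mult riemannZeta s : ℝ) *
      Real.exp (κ * (|(zz s).im| * L)) ≤ C' * (T * L) :=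
    (Finset.sum_le_sum_of_subset_of_nonneg hsub fun s _ _ => by positivity).trans hdT
  constructor
  · intro t1 t2 ht
    have h7 : ∀ s ∈ Zf riemannZeta U1 U2,
        Integrable (fun t : ℝ => err B (τ * L) N N0 κ1 Y0 L 0 η1 t (zz s)) ∧
        ∫ t : ℝ, err B (τ * L) N N0 κ1 Y0 L 0 η1 t (zz s) ≤
          N / (τ * L) * (3 * η1 + ε / (3 * C') + (if Y0 ≤ |(zz s).im| * L then
            C2 * Real.exp (κ * (|(zz s).im| * L) / 2) else 0)) := by
      intro s hs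
      refine h6 0 η1 le_rfl (by positivity) hη0.le hηa B hB (zz s) ?_
      rw [mem_Zf good_zeta (by linarith)] at hs
      rw [zz_im, abs_neg, abs_le]
      constructor <;> linarith [hs.1, hs.2.1]
    have hK : 3 * η1 + ε / (3 * C') + C2 * Real.exp (-(κ * Y0 / 2)) ≤ ε / C' := by
      calc _ ≤ ε / (3 * C') + ε / (3 * C') + ε / (3 * C') := by gcongr
        _ = ε / C' := by field_simp; ring
    have h8 : ∀ s ∈ Zf riemannZeta U1 U2,
        ∫ t in t1..t2, (mult riemannZeta s : ℝ) * err B (τ * L) N N0 κ1 Y0 L 0 η1 t (zz s) ≤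
          N / (τ * L) * (ε / C') * ((mult riemannZeta s : ℝ) *
            Real.exp (κ * (|(zz s).im| * L))) := by
      intro s hs
      obtain ⟨hi, hb⟩ := h7 s hs
      rw [intervalIntegral.integral_const_mul]
      have e1 : ∫ t in t1..t2, err B (τ * L) N N0 κ1 Y0 L 0 η1 t (zz s) ≤
          ∫ t : ℝ, err B (τ * L) N N0 κ1 Y0 L 0 η1 t (zz s) := by
        rw [intervalIntegral.integral_of_le ht]
        exact setIntegral_le_integral hi (Eventually.of_forall fun t =>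
          Pool.Agent.Y655.SW.err_nonneg B _ N N0 κ1 Y0 L 0 η1 hη0.le t _)
      have hy : 0 ≤ |(zz s).im| * L := mul_nonneg (abs_nonneg _) hL.le
      have e2 : 1 ≤ Real.exp (κ * (|(zz s).im| * L)) := Real.one_le_exp (by positivity)
      have e3 : (if Y0 ≤ |(zz s).im| * L then C2 * Real.exp (κ * (|(zz s).im| * L) / 2) else 0) ≤
          C2 * Real.exp (-(κ * Y0 / 2)) * Real.exp (κ * (|(zz s).im| * L)) := by
        split_ifs with h
        · rw [mul_assoc, ← Real.exp_add]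
          refine mul_le_mul_of_nonneg_left (Real.exp_le_exp.2 ?_) hC2.le
          have : κ * Y0 ≤ κ * (|(zz s).im| * L) := mul_le_mul_of_nonneg_left h hκ.le
          linarith
        · positivity
      have e4 : 3 * η1 + ε / (3 * C') + (if Y0 ≤ |(zz s).im| * L then
            C2 * Real.exp (κ * (|(zz s).im| * L) / 2) else 0) ≤
          ε / C' * Real.exp (κ * (|(zz s).im| * L)) := by
        have f1 : 3 * η1 + ε / (3 * C') ≤
            (3 * η1 + ε / (3 * C')) * Real.exp (κ * (|(zz s).im| * L)) :=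
          le_mul_of_one_le_right (by positivity) e2
        have f2 := mul_le_mul_of_nonneg_right hK (Real.exp_pos (κ * (|(zz s).im| * L))).le
        linarith
      calc (mult riemannZeta s : ℝ) * ∫ t in t1..t2, err B (τ * L) N N0 κ1 Y0 L 0 η1 t (zz s) ≤
          (mult riemannZeta s : ℝ) * (N / (τ * L) * (ε / C' *
            Real.exp (κ * (|(zz s).im| * L)))) := by
            refine mul_le_mul_of_nonneg_left (e1.trans (hb.trans ?_)) (Nat.cast_nonneg _)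
            exact mul_le_mul_of_nonneg_left e4 (by positivity)
        _ = _ := by ring
    rw [intervalIntegral.integral_finsetSum (fun s hs =>
      ((h7 s hs).1.intervalIntegrable).const_mul _)]
    refine (Finset.sum_le_sum h8).trans ?_
    rw [← Finset.mul_sum]
    calc N / (τ * L) * (ε / C') * ∑ s ∈ Zf riemannZeta U1 U2, (mult riemannZeta s : ℝ) *
        Real.exp (κ * (|(zz s).im| * L)) ≤ N / (τ * L) * (ε / C') * (C' * (T * L)) :=
          mul_le_mul_of_nonneg_left h9 (by positivity)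
      _ = ε * (N / τ * T) := by field_simp
  · have hτL : 0 < τ * L := mul_pos hτ hL
    have h8 : ∀ s ∈ (Zf riemannZeta U1 U2).filter (fun s => Y0 ≤ |(zz s).im| * L),
        (mult riemannZeta s : ℝ) * (2 * th (τ * L) N N0 κ1 Y0 L |(zz s).im|) ≤
        4 * (N / (τ * L)) * Real.exp (-(κ * Y0 / 2)) * ((mult riemannZeta s : ℝ) *
          Real.exp (κ * (|(zz s).im| * L))) := by
      intro s hs
      have hY := (Finset.mem_filter.1 hs).2
      set Y := |(zz s).im| * L with hYd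
      have e1 : th (τ * L) N N0 κ1 Y0 L |(zz s).im| = (N + Real.exp (κ1 * Y)) / (τ * L) := by
        unfold th
        rw [if_neg (not_lt.2 hY)]
      have hY0' : 0 ≤ Y := by linarith
      have e2 : Real.exp (κ1 * Y) ≤ Real.exp (-(κ * Y0 / 2)) * Real.exp (κ * Y) := by
        rw [← Real.exp_add, Real.exp_le_exp]
        have : κ1 * Y ≤ κ / 2 * Y := mul_le_mul_of_nonneg_right hκ12 hY0'
        have h2 : κ * Y0 ≤ κ * Y := mul_le_mul_of_nonneg_left hY hκ.le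
        linarith
      have e3 : 1 ≤ Real.exp (κ1 * Y) := Real.one_le_exp (by positivity)
      have e4 : N + Real.exp (κ1 * Y) ≤ 2 * N * (Real.exp (-(κ * Y0 / 2)) * Real.exp (κ * Y)) := by
        have h1N : 1 ≤ N := by linarith
        have h1 : N + Real.exp (κ1 * Y) ≤ 2 * N * Real.exp (κ1 * Y) := by nlinarith
        exact h1.trans (mul_le_mul_of_nonneg_left e2 (by positivity))
      rw [e1]
      calc (mult riemannZeta s : ℝ) * (2 * ((N + Real.exp (κ1 * Y)) / (τ * L))) ≤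
          (mult riemannZeta s : ℝ) * (2 * ((2 * N * (Real.exp (-(κ * Y0 / 2)) * Real.exp (κ * Y))) /
            (τ * L))) := by gcongr
        _ = _ := by ring
    refine (Finset.sum_le_sum h8).trans ?_
    rw [← Finset.mul_sum]
    have h10 : ∑ s ∈ (Zf riemannZeta U1 U2).filter (fun s => Y0 ≤ |(zz s).im| * L),
        (mult riemannZeta s : ℝ) * Real.exp (κ * (|(zz s).im| * L)) ≤ C' * (T * L) :=
      (Finset.sum_le_sum_of_subset_of_nonneg (Finset.filter_subset _ _)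
        fun s _ _ => by positivity).trans h9
    have h11 : 0 ≤ N / τ * T := by positivity
    calc 4 * (N / (τ * L)) * Real.exp (-(κ * Y0 / 2)) *
        ∑ s ∈ (Zf riemannZeta U1 U2).filter (fun s => Y0 ≤ |(zz s).im| * L),
        (mult riemannZeta s : ℝ) * Real.exp (κ * (|(zz s).im| * L)) ≤
        4 * (N / (τ * L)) * Real.exp (-(κ * Y0 / 2)) * (C' * (T * L)) :=
          mul_le_mul_of_nonneg_left h10 (by positivity)
      _ = 4 * C' * Real.exp (-(κ * Y0 / 2)) * (N / τ * T) := by field_simp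
      _ ≤ ε * (N / τ * T) := mul_le_mul_of_nonneg_right hY3 h11

end

end Pool.Agent.J4.H62.LD
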