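import Pool.Agent.Y745.SW.Blk6
import Pool.Agent.J4.H62.LD.Calc
import Pool.Agent.J4.H62.LD.Er

set_option autoImplicit false

/-! The block theorem for distinct zeros. -/

namespace Pool.Agent.J4.H62.LD

open Filter Topology MeasureTheory Complex H370 TH803UC TH803CL Pool.Agent.Y745.SW

noncomputable section

/-- the zeros near the critical line -/
def ZN (U1 U2 Y0 L : ℝ) : Finset ℂ := (Zf riemannZeta U1 U2).filter (fun s => |(zz s).im| * L < Y0)

/-- the number of zeros near the line with ordinate near `x` -/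
def lc (U1 U2 Y0 L ρ x : ℝ) : ℝ :=
  ∑ s ∈ (ZN U1 U2 Y0 L).filter (fun s => |s.im - x| ≤ ρ), (mult riemannZeta s : ℝ)

open Classical in
/-- the block theorem -/
def P_BLKx : Prop := ∀ ε H : ℝ, 0 < ε → ε ≤ 1 → 0 < H → ∃ (r Y0 M1 εs τ : ℝ) (B : ℝ → ℝ), 4 * H ≤ r ∧
  1 ≤ Y0 ∧ 0 < M1 ∧ 0 < εs ∧ εs < 1 / 2 ∧ 0 < τ ∧ τ ≤ εs / 4 ∧ Continuous B ∧
  ∀ (c : ℕ → ℂ) (C0 : ℝ), (∀ n, ‖c n‖ ≤ ArithmeticFunction.vonMangoldt n) →
    (∃ K0 : ℝ, ∀ᶠ T : ℝ in atTop, Zq Rf c B εs τ (4 * τ) T ≤ K0) ∧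
    ∀ᶠ T : ℝ in atTop, ∀ U1 U2 : ℝ, EFD c C0 T U1 U2 →
      (∑ s ∈ (ZN U1 U2 Y0 (Real.log T)).filter (fun s => T + 2 * Real.log T ≤ s.im ∧
          s.im ≤ 2 * T - 2 * Real.log T ∧ M1 < lc U1 U2 Y0 (Real.log T) (r / (2 * Real.log T)) s.im),
        (mult riemannZeta s : ℝ) ≤ ε * (T * Real.log T)) ∧
      ∀ S : Set ℝ, MeasurableSet S →
      S ⊆ Set.Icc (T + Real.log T) (2 * T - Real.log T) →
      ((∫ t in S, Dq Rf c B εs τ (4 * τ) T t) ≤ volume.real S * Zq Rf c B εs τ (4 * τ) T + T →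
        ((3 - cMTinv) / 2 * volume.real S - ε * T) * (Real.log T / (2 * Real.pi)) ≤
          (((ZL U1 U2).filter (fun s => |(zz s).im| * Real.log T < Y0 ∧
            ∃ t ∈ S, |s.im - t| ≤ r / Real.log T)).card : ℝ)) ∧
      (volume.real S - ε * T) * (Real.log T / (2 * Real.pi)) ≤
        ∑ s ∈ (Zf riemannZeta U1 U2).filter (fun s => |(zz s).im| * Real.log T < Y0 ∧
            ∃ t ∈ S, |s.im - t| ≤ r / Real.log T), (mult riemannZeta s : ℝ)

open Classical in
lemma count_bound (G : Finset ℂ) (w rr : ℂ → ℝ) (S : Set ℝ) (near : ℂ → Prop) (ρ F : ℝ)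
    (hw : ∀ s ∈ G, 0 ≤ w s) (hρ : 0 ≤ ρ) (hnear : ∀ s ∈ G, near s → rr s = ρ) (hrr : ∀ s ∈ G, 0 ≤ rr s)
    (hfar : ∑ s ∈ G.filter (fun s => ¬ near s), w s * (2 * rr s) ≤ F) :
    ∑ s ∈ G, w s * (volume.restrict S).real {t : ℝ | |s.im - t| ≤ rr s} ≤
      2 * ρ * ∑ s ∈ G.filter (fun s => near s ∧ ∃ t ∈ S, |s.im - t| ≤ ρ), w s + F := by
  rw [← Finset.sum_filter_add_sum_filter_not G near]
  refine add_le_add ?_ ?_
  · rw [← Finset.filter_filter, Finset.sum_filter (fun s : ℂ => ∃ t ∈ S, |s.im - t| ≤ ρ), Finset.mul_sum]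
    refine Finset.sum_le_sum fun s hs => ?_
    rw [Finset.mem_filter] at hs
    rw [hnear s hs.1 hs.2]
    split_ifs with h
    · have := mul_le_mul_of_nonneg_left (meas_le S (c := s.im) hρ) (hw s hs.1)
      linarith
    · rw [meas_zero h, mul_zero, mul_zero]
  · refine le_trans (Finset.sum_le_sum fun s hs => ?_) hfar
    rw [Finset.mem_filter] at hs
    exact mul_le_mul_of_nonneg_left (meas_le S (hrr s hs.1)) (hw s hs.1)

lemma th_nonneg {a N N0 κ1 Y0 L y : ℝ} (ha : 0 < a) (hN : 0 ≤ N) (hN0 : N0 ≤ N) : 0 ≤ th a N N0 κ1 Y0 L y := by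
  unfold th
  split_ifs
  · exact div_nonneg (by linarith) ha.le
  · have := Real.exp_pos (κ1 * (y * L))
    exact div_nonneg (by linarith) ha.le

/-- the dense zeros -/
lemma dense_le {U1 U2 Y0 T L r M1 : ℝ} {rr : ℂ → ℝ} (hL : 0 < L) (hr : 0 ≤ r) (hrL : r ≤ L)
    (hrr : ∀ s ∈ Zf riemannZeta U1 U2, 0 ≤ rr s)
    (hnear : ∀ s ∈ Zf riemannZeta U1 U2, |(zz s).im| * L < Y0 → rr s = r / L) (hL1 : 1 ≤ L)
    {SD : Set ℝ} (hSD : SD = {t : ℝ | t ∈ Set.Icc (T + L) (2 * T - L) ∧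
      M1 ≤ nw (Zf riemannZeta U1 U2) (fun s => (mult riemannZeta s : ℝ)) rr t}) :
    (∑ s ∈ (ZN U1 U2 Y0 L).filter (fun s => T + 2 * L ≤ s.im ∧
          s.im ≤ 2 * T - 2 * L ∧ M1 < lc U1 U2 Y0 L (r / (2 * L)) s.im),
        (mult riemannZeta s : ℝ)) * (r / L) ≤
      ∑ s ∈ Zf riemannZeta U1 U2, (mult riemannZeta s : ℝ) *
        (volume.restrict SD).real {t : ℝ | |s.im - t| ≤ rr s} := by
  classical
  have hrL0 : 0 ≤ r / L := div_nonneg hr hL.le
  rw [Finset.sum_mul]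
  have hsub : (ZN U1 U2 Y0 L).filter (fun s => T + 2 * L ≤ s.im ∧
          s.im ≤ 2 * T - 2 * L ∧ M1 < lc U1 U2 Y0 L (r / (2 * L)) s.im) ⊆ Zf riemannZeta U1 U2 :=
    (Finset.filter_subset _ _).trans (Finset.filter_subset _ _)
  refine le_trans ?_ (Finset.sum_le_sum_of_subset_of_nonneg hsub fun s _ _ =>
    mul_nonneg (Nat.cast_nonneg _) measureReal_nonneg)
  refine Finset.sum_le_sum fun s hs => mul_le_mul_of_nonneg_left ?_ (Nat.cast_nonneg _)
  rw [Finset.mem_filter] at hs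
  obtain ⟨hsN, hs1, hs2, hs3⟩ := hs
  unfold ZN at hsN
  rw [Finset.mem_filter] at hsN
  rw [hnear s hsN.1 hsN.2]
  have hhalf : r / (2 * L) ≤ r / L := div_le_div_of_nonneg_left hr hL (by linarith)
  have hhalf0 : 0 ≤ r / (2 * L) := div_nonneg hr (by linarith)
  have hr1 : r / (2 * L) ≤ L := by
    rw [div_le_iff₀ (by linarith)]
    nlinarith
  have e2 : r / (2 * L) + r / (2 * L) = r / L := by field_simp; ring
  -- the interval is contained in SD
  have hin : Set.Icc (s.im - r / (2 * L)) (s.im + r / (2 * L)) ⊆ SD ∩ {t : ℝ | |s.im - t| ≤ r / L} := by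
    intro t ht
    have h1 : |s.im - t| ≤ r / (2 * L) := by
      rw [abs_le]; constructor <;> linarith [ht.1, ht.2]
    refine ⟨?_, h1.trans hhalf⟩
    rw [hSD]
    refine ⟨⟨by linarith [ht.1], by linarith [ht.2]⟩, hs3.le.trans ?_⟩
    unfold lc nw ZN
    rw [Finset.filter_filter, Finset.sum_filter]
    refine Finset.sum_le_sum fun s' hs' => ?_
    split_ifs with h2 h3 h3
    · rw [mul_one]
    · exfalso
      apply h3
      rw [hnear s' hs' h2.1]
      calc |s'.im - t| = |(s'.im - s.im) + (s.im - t)| := by congr 1; ring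
        _ ≤ |s'.im - s.im| + |s.im - t| := abs_add_le _ _
        _ ≤ r / L := by linarith [h2.2]
    · rw [mul_one]; exact Nat.cast_nonneg _
    · rw [mul_zero]
  have h4 : volume.real (Set.Icc (s.im - r / (2 * L)) (s.im + r / (2 * L))) = r / L := by
    rw [Real.volume_real_Icc_of_le (by linarith)]
    linarith
  have hfin : volume ({t : ℝ | |s.im - t| ≤ r / L}) ≠ ⊤ := by
    have h1 : {t : ℝ | |s.im - t| ≤ r / L} = Set.Icc (s.im - r / L) (s.im + r / L) := by
      ext t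
      simp only [Set.mem_setOf_eq, Set.mem_Icc, abs_le]
      constructor <;> intro h <;> constructor <;> linarith [h.1, h.2]
    rw [h1, Real.volume_Icc]
    exact ENNReal.ofReal_ne_top
  have h5 : (volume.restrict SD).real {t : ℝ | |s.im - t| ≤ r / L} =
      volume.real ({t : ℝ | |s.im - t| ≤ r / L} ∩ SD) := by
    rw [Measure.real, Measure.real, Measure.restrict_apply (ball_meas _ _)]
  refine h4.symm.le.trans (le_trans ?_ h5.symm.le)
  refine ENNReal.toReal_mono (ne_top_of_le_ne_top hfin (measure_mono Set.inter_subset_left)) (measure_mono ?_)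
  rw [Set.inter_comm]
  exact hin

theorem blkx (hζ : GoodL riemannZeta) (hKER : P_KER) (hERS : P_ERSx) (hTRK : P_TRK) (hMN : P_MN)
    (hDF : P_DF) (hEF : P_EF) (hSM : P_SM) : P_BLKx := by
  classical
  intro ε H hε hε1 hH
  obtain ⟨j, τ0, hτ0, hτ01, hE⟩ := hERS
  obtain ⟨C, hC, hB⟩ := hKER j
  obtain ⟨CD, hCD, hDFR⟩ := hDF Rf Rf_cont (fun x _ => Rf_nonneg x) (by
    obtain ⟨K, -, hK⟩ := Rf_lip
    exact ⟨K, hK⟩)
  obtain ⟨CS, hCS, hSM⟩ := hSM
  have hpi := Real.pi_pos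
  set ε2 : ℝ := ε / (160 * Real.pi) with hε2
  obtain ⟨κ1, Y0, η1, N0, N1, hY0, hη10, hη11, hN0, hN1, hN01, hE⟩ := hE C hC ε2 (by positivity)
  obtain ⟨B, hW⟩ := hB N1 hN1
  set N := N1 with hN
  set η : ℝ := ε / 64 with hη
  set εs : ℝ := ε / 64 with hεs
  set q : ℝ := (1 + 1 / η) * (2 * Rf 0) with hq
  have hη0 : 0 < η := by positivity
  have hq0 : 0 ≤ q := mul_nonneg (by positivity) (mul_nonneg (by norm_num) (Rf_nonneg 0))
  have hN0' : 0 < N := by linarith
  have hN00 : 0 < N0 := by linarith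
  -- the choice of `τ`
  obtain ⟨τ, hτ, hτa, hτb, hτ1, hτ2, hτ3, hτ4, hτH⟩ : ∃ τ : ℝ, 0 < τ ∧ τ ≤ τ0 ∧ τ ≤ εs / 4 ∧
      τ * (16 * Real.pi * (C * (1 + CS))) ≤ ε ∧ τ * (16 * Real.pi * (q + 4)) ≤ ε ∧
      τ * (320 * Real.pi * (q * CS * C ^ 2 * N)) ≤ ε ∧ τ * (32 * CD) ≤ ε ∧ τ * (8 * H) ≤ ε := by
    have hC0 : 0 < C := by linarith
    set W := 16 * Real.pi * (C * (1 + CS)) + 16 * Real.pi * (q + 4) +
      320 * Real.pi * (q * CS * C ^ 2 * N) + 32 * CD + 8 * H with hWd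
    have w1 : 0 ≤ 16 * Real.pi * (C * (1 + CS)) := by positivity
    have w2 : 0 < 16 * Real.pi * (q + 4) := by positivity
    have w3 : 0 ≤ 320 * Real.pi * (q * CS * C ^ 2 * N) := by positivity
    have w4 : 0 ≤ 32 * CD := by positivity
    have w5 : 0 ≤ 8 * H := by positivity
    have hW0 : 0 < W := by rw [hWd]; linarith
    refine ⟨min (min τ0 (εs / 4)) (ε / W), by positivity, (min_le_left _ _).trans (min_le_left _ _),
      (min_le_left _ _).trans (min_le_right _ _), ?_, ?_, ?_, ?_, ?_⟩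
    all_goals
      have h1 : min (min τ0 (εs / 4)) (ε / W) ≤ ε / W := min_le_right _ _
      have h0 : 0 < min (min τ0 (εs / 4)) (ε / W) := by positivity
      have h2 : min (min τ0 (εs / 4)) (ε / W) * W ≤ ε := by
        rwa [le_div_iff₀ hW0] at h1
      refine le_trans (mul_le_mul_of_nonneg_left ?_ h0.le) h2
      rw [hWd]
      linarith
  have hτ64 : τ ≤ 1 / 256 := by
    refine hτb.trans ?_
    rw [hεs]; linarith
  set r : ℝ := (N - N0) / τ with hrd
  have hr4 : 4 * H ≤ r := by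
    rw [hrd, le_div_iff₀ hτ]
    nlinarith
  have hr0 : 0 < r := by linarith
  have hrN : r ≤ N / τ := by
    rw [hrd]
    exact div_le_div_of_nonneg_right (by linarith) hτ.le
  set M1 : ℝ := 32 * τ * CS * C ^ 2 * N / ε + 4 * (N / (Real.pi * τ)) with hM1
  have hM1a : 32 * τ * CS * C ^ 2 * N / ε ≤ M1 := by
    have : 0 ≤ 4 * (N / (Real.pi * τ)) := by positivity
    rw [hM1]; linarith
  have hM1b : 4 * (N / (Real.pi * τ)) ≤ M1 := by
    have : 0 ≤ 32 * τ * CS * C ^ 2 * N / ε := by positivity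
    rw [hM1]; linarith
  have hMp : 0 < N / (Real.pi * τ) := by positivity
  have hM10 : 0 < M1 := by linarith
  refine ⟨r, Y0, M1, εs, τ, B, hr4, hY0, hM10, by positivity, by rw [hεs]; linarith, hτ, hτb, hW.cont, ?_⟩
  intro c C0 hc
  have hZq := Zq_le (c := c) hW.cont (ε := εs) (τ := τ) (ηs := 4 * τ) (by positivity) (by rw [hεs]; linarith) hτ hτb
    le_rfl (by linarith) hDF Rf_cont (fun x _ => Rf_nonneg x) (by
    obtain ⟨K, -, hK⟩ := Rf_lip
    exact ⟨K, hK⟩) hW.even hc hDFR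
  refine ⟨⟨_, hZq⟩, ?_⟩
  obtain ⟨C1, hC1, hEF⟩ := hEF εs τ (by positivity) (by rw [hεs]; linarith) hτ hτb c C0
  have hEF := hEF B (C * N) hW.cont hW.even hW.bd
  have hSM := hSM εs τ (by positivity) (by rw [hεs]; linarith) hτ hτb c C0 B (C * N) hW.cont hW.even hW.bd
  have hE := hE N τ le_rfl hτ hτa B hW
  -- the main term
  have hMu : ∀ᶠ T : ℝ in atTop, (1 - ε / 64) * (N / (Real.pi * τ)) ≤ Mu B (τ * Real.log T) (Real.log T) 0 ∧
      Mu B (τ * Real.log T) (Real.log T) 0 ≤ 2 * (N / (Real.pi * τ)) := by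
    have h1 := (Mu_lim hW.cont hτ).comp Real.tendsto_log_atTop
    rw [hW.zero] at h1
    have h2 : N / Real.pi / τ = N / (Real.pi * τ) := by rw [div_div]
    rw [h2] at h1
    refine (h1.eventually_const_le ?_).and (h1.eventually_le_const ?_)
    · nlinarith
    · linarith
  have hlog := Real.tendsto_log_atTop
  have hTl : ∀ᶠ T : ℝ in atTop, T + Real.log T ≤ 2 * T - Real.log T := by
    have h1 := Real.isLittleO_log_id_atTop.def (c := 1 / 2) (by norm_num)
    filter_upwards [h1, eventually_ge_atTop 1] with T hT hT1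
    rw [Real.norm_eq_abs, Real.norm_eq_abs, id, abs_of_pos (by linarith : 0 < T)] at hT
    have := le_abs_self (Real.log T)
    linarith
  have hsm1 : ∀ᶠ T : ℝ in atTop, C1 * (C * N) / Real.log T ≤ 1 / 2 := by
    filter_upwards [hlog.eventually_ge_atTop (2 * (C1 * (C * N)) + 1)] with T hT
    have h0 : 0 ≤ C1 * (C * N) := by positivity
    rw [div_le_iff₀ (by linarith)]
    linarith
  have hsm2 : ∀ᶠ T : ℝ in atTop, 2 * (C * N) * (Real.log T * Real.exp (-(τ * Real.log T) ^ 2 / 2)) ≤ 1 / 2 :=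
    hlog.eventually (tail_ev (C * N) τ hτ)
  filter_upwards [hZq, hEF, hSM, hE, hMu, hTl, hsm1, hsm2, hlog.eventually_ge_atTop (r + 10), eventually_ge_atTop 1]
    with T tZ tEF tSM tE tMu tT t1 t2 tL' tT1
  intro U1 U2 hefd
  obtain ⟨tMu, tMu'⟩ := tMu
  set L := Real.log T with hL
  have tL : 10 ≤ L := by linarith
  have hL0 : 0 < L := by linarith
  have hT0 : 0 < T := by linarith
  have hτL : 0 < τ * L := mul_pos hτ hL0
  have hU1 : 1 ≤ U1 := by linarith [hefd.h1]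
  obtain ⟨tE1, tE2⟩ := tE U1 U2 hefd.h1 hefd.h4
  have tE1' := tE1 (T + L) (2 * T - L) tT
  have tSM' := tSM U1 U2 hefd
  set rr : ℂ → ℝ := fun s => th (τ * L) N N0 κ1 Y0 L |(zz s).im| with hrr
  have hrr0 : ∀ s : ℂ, 0 ≤ rr s := fun s => th_nonneg hτL hN0'.le (by linarith)
  have hrrn : ∀ s : ℂ, |(zz s).im| * L < Y0 → rr s = r / L := by
    intro s hs
    simp only [hrr, th]
    rw [if_pos hs, hrd, div_div]
  have hKpos : 0 < C * N := by positivity
  have hεs2 : εs < 1 / 2 := by rw [hεs]; linarith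
  refine ⟨?_, fun S hS hSI => ⟨fun hDq => ?_, ?_⟩⟩
  · -- dense zeros
    set SD : Set ℝ := {t : ℝ | t ∈ Set.Icc (T + L) (2 * T - L) ∧
      M1 ≤ nw (Zf riemannZeta U1 U2) (fun s => (mult riemannZeta s : ℝ)) rr t} with hSD
    have hSDI : SD ⊆ Set.Icc (T + L) (2 * T - L) := fun t ht => ht.1
    have hmeas : Measurable (nw (Zf riemannZeta U1 U2) (fun s => (mult riemannZeta s : ℝ)) rr) := by
      unfold nw
      refine Finset.measurable_fun_sum _ fun s _ => ?_
      exact (Measurable.ite (ball_meas _ _) measurable_const measurable_const).const_mul _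
    have hSDm : MeasurableSet SD :=
      measurableSet_Icc.inter (measurableSet_le measurable_const hmeas)
    have h1 := dense_le (U1 := U1) (U2 := U2) (Y0 := Y0) (T := T) (L := L) (r := r) (M1 := M1) (rr := rr) hL0 hr0.le
      (by linarith) (fun s _ => hrr0 s) (fun s _ h => hrrn s h) (by linarith) hSD
    have hSf : volume SD ≠ ⊤ := ne_top_of_le_ne_top (by simp) (measure_mono hSDI)
    rw [← (count_w (Zf riemannZeta U1 U2) (fun s => (mult riemannZeta s : ℝ)) rr SD hSf).2] at h1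
    have h2 := block_dense (ε := εs) (τ := τ) (K := C * N) (T := T) (U1 := U1) (U2 := U2) hW hεs2 (L := L)
      (η1 := η1) (N0 := N0) (κ1 := κ1) (Y0 := Y0) (CS := CS) (ε2 := ε2) (M1 := M1) tL tT hη10.le
      (fun u h3 h4 => tSM' u h3 h4) tE1' hM10 (by linarith) hSDm hSDI (fun t ht => ht.2)
    exact calc_dense (N0 := N0) hT0 (by linarith) hN01 hτ hε hCS hC rfl rfl rfl hM1a hM10 hL0 h1 h2
  · -- distinct zeros
    have hblk := block_d (B := B) (c := c) (ε := εs) (τ := τ) (η := η) (K := C * N) (T := T) (U1 := U1) (U2 := U2)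
      hTRK hMN hζ hW hKpos (by positivity) hεs2 hτ hτb hη0
      (L := L) (η1 := η1) (N0 := N0) (κ1 := κ1) (Y0 := Y0) (CS := CS) (ε2 := ε2) hL tL tT
      hU1 hη10.le
      (fun t u h1 h2 h3 h4 => (tEF U1 U2 hefd t u h1 h2 h3 h4).trans t1)
      (fun u hu => (Mu_small hW.cont hW.bd (mul_pos hτ hL0) hL0 hu).trans t2) hCS
      (fun u h3 h4 => tSM' u h3 h4) tE1' hS hSI
    have hA0 : 0 ≤ volume.real S := measureReal_nonneg
    have hAT : volume.real S ≤ T := by
      have h1 : volume.real S ≤ volume.real (Set.Icc (T + L) (2 * T - L)) :=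
        measureReal_mono hSI (by simp)
      rw [Real.volume_real_Icc_of_le tT] at h1
      linarith
    have hI0 : 0 ≤ ∫ ξ in (-1:ℝ)..1, B ξ ^ 2 :=
      intervalIntegral.integral_nonneg (by norm_num) fun x _ => sq_nonneg _
    have hR1 : 0 ≤ ∫ x in (0:ℝ)..1, x * Rf x :=
      intervalIntegral.integral_nonneg (by norm_num) fun x hx => mul_nonneg hx.1 (Rf_nonneg x)
    have hSf : volume S ≠ ⊤ := ne_top_of_le_ne_top (by simp) (measure_mono hSI)
    rw [(count_w (ZL U1 U2) (fun _ => 1) rr S hSf).2] at hblk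
    have hfar : ∑ s ∈ (ZL U1 U2).filter (fun s => ¬ |(zz s).im| * L < Y0), (1:ℝ) * (2 * rr s) ≤
        ε2 * (N / τ * T) := by
      refine le_trans ?_ tE2
      refine le_trans (Finset.sum_le_sum_of_subset_of_nonneg (t := (Zf riemannZeta U1 U2).filter
        (fun s => Y0 ≤ |(zz s).im| * L)) ?_ ?_) (Finset.sum_le_sum fun s hs => ?_)
      · intro s hs
        unfold ZL at hs
        rw [Finset.mem_filter, Finset.mem_filter] at hs
        rw [Finset.mem_filter]
        exact ⟨hs.1.1, not_lt.1 hs.2⟩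
      · intro s _ _
        have := hrr0 s
        linarith
      · rw [Finset.mem_filter] at hs
        have hm := (mem_Zf hζ hU1).mp hs.1
        have h8 : 1 ≤ mult riemannZeta s := Loc.mult_pos' hζ (by linarith [hm.2.2.1]) hm.2.2.2.2
        have h9 : (1:ℝ) ≤ mult riemannZeta s := by exact_mod_cast h8
        exact mul_le_mul_of_nonneg_right h9 (by linarith [hrr0 s])
    have hP := count_bound (ZL U1 U2) (fun _ => (1:ℝ)) rr S (fun s => |(zz s).im| * L < Y0) (r / L)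
      (ε2 * (N / τ * T)) (fun _ _ => zero_le_one) (by positivity) (fun s _ h => hrrn s h) (fun s _ => hrr0 s) hfar
    rw [Finset.sum_const, nsmul_eq_mul, mul_one] at hP
    exact calc_d (A := volume.real S) (T := T) (N := N) (τ := τ) (ε := ε) (c := cMTinv) (R0 := Rf 0)
      (R1 := ∫ x in (0:ℝ)..1, x * Rf x) (CD := CD) (CS := CS) (C := C) (K := C * N) (q := q) (η := η) (εs := εs)
      (ε2 := ε2) (M := N / (Real.pi * τ)) (I2 := ∫ ξ in (-1:ℝ)..1, B ξ ^ 2) (Mu0 := Mu B (τ * L) L 0)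
      (Z := Zq Rf c B εs τ (4 * τ) T) (DD := ∫ t in S, Dq Rf c B εs τ (4 * τ) T t) (L := L) (r := r)
      hA0 hAT (by linarith) hτ (by linarith) hε hε1 Rf_const cMTinv_lt.le (Rf_nonneg 0) hR1 hCD hCS hC rfl rfl rfl rfl
      rfl hI0 hW.sq tMu tZ hDq hq0 hτ1 hτ2 hτ3 hτ4 hL0 (Nat.cast_nonneg _) hrN hP hblk
  · -- all zeros
    have hblk := block_m (ε := εs) (τ := τ) (K := C * N) (T := T) (U1 := U1) (U2 := U2) hW hKpos hεs2 (L := L)
      (η1 := η1) (N0 := N0) (κ1 := κ1) (Y0 := Y0) (CS := CS) (ε2 := ε2) tL tT hη10.le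
      (fun u h3 h4 => tSM' u h3 h4) tE1' hS hSI
    have hA0 : 0 ≤ volume.real S := measureReal_nonneg
    have hAT : volume.real S ≤ T := by
      have h1 : volume.real S ≤ volume.real (Set.Icc (T + L) (2 * T - L)) :=
        measureReal_mono hSI (by simp)
      rw [Real.volume_real_Icc_of_le tT] at h1
      linarith
    have hSf : volume S ≠ ⊤ := ne_top_of_le_ne_top (by simp) (measure_mono hSI)
    rw [(count_w (Zf riemannZeta U1 U2) (fun s => (mult riemannZeta s : ℝ)) rr S hSf).2] at hblk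
    have hfar : ∑ s ∈ (Zf riemannZeta U1 U2).filter (fun s => ¬ |(zz s).im| * L < Y0),
        (mult riemannZeta s : ℝ) * (2 * rr s) ≤ ε2 * (N / τ * T) := by
      refine le_trans (le_of_eq ?_) tE2
      refine Finset.sum_congr ?_ fun s _ => rfl
      ext s
      rw [Finset.mem_filter, Finset.mem_filter, not_lt]
    have hP := count_bound (Zf riemannZeta U1 U2) (fun s => (mult riemannZeta s : ℝ)) rr S
      (fun s => |(zz s).im| * L < Y0) (r / L)
      (ε2 * (N / τ * T)) (fun _ _ => Nat.cast_nonneg _) (by positivity) (fun s _ h => hrrn s h)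
      (fun s _ => hrr0 s) hfar
    exact calc_m (A := volume.real S) (T := T) (N := N) (τ := τ) (ε := ε) (CS := CS) (C := C) (K := C * N)
      (ε2 := ε2) (M := N / (Real.pi * τ)) (Mu0 := Mu B (τ * L) L 0) (L := L) (r := r)
      hA0 hAT (by linarith) hτ hε hCS hC rfl rfl rfl tMu hτ1 hL0
      (Finset.sum_nonneg fun _ _ => Nat.cast_nonneg _) hrN hP hblk

end

end Pool.Agent.J4.H62.LD
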