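import Pool.Agent.Y833.SW.Di

set_option autoImplicit false

/-! The local trace inequality with weights, for distinct points. -/

open scoped BigOperators ComplexConjugate

namespace Pool.Agent.J4.H62.LD

open H370 TH803UC TH803CL Pool.Agent.Y745.SW Pool.Agent.Y833.SW

lemma cl_id {Z : Finset ℂ} {a : ℂ} (ha : a ∈ Z.filter (fun z => 0 ≤ z.im)) :
    Cl Z (fun z => z) a = {a} := by
  unfold Cl
  ext w
  rw [Finset.mem_filter, Finset.mem_singleton]
  constructor
  · rintro ⟨-, h⟩; exact h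
  · rintro rfl; exact ⟨ha, rfl⟩

lemma cw_cases {Z : Finset ℂ} {m : ℂ → ℕ} (hm1 : ∀ z ∈ Z, 1 ≤ m z) {z : ℂ} (hz : z ∈ Z) :
    (cw m z = 1 ∧ z.im = 0) ∨ 2 ≤ cw m z := by
  have h1 := hm1 z hz
  unfold cw
  by_cases h : z.im = 0
  · rw [if_pos h]
    rcases Nat.lt_or_ge 1 (m z) with h2 | h2
    · right; exact_mod_cast h2
    · left
      have : m z = 1 := le_antisymm h2 h1
      rw [this]; exact ⟨by norm_num, h⟩
  · rw [if_neg h]
    right
    have : (1:ℝ) ≤ m z := by exact_mod_cast h1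
    linarith

/-- the local trace inequality with weights, for distinct points -/
theorem did (Z : Finset ℂ) (m : ℂ → ℕ) (v : ℂ → ℂ) (th : ℝ → ℝ) (Λ L η1 t : ℝ)
    (hZ : ∀ z ∈ Z, (starRingEnd ℂ) z ∈ Z) (hm1 : ∀ z ∈ Z, 1 ≤ m z)
    (hmc : ∀ z ∈ Z, m ((starRingEnd ℂ) z) = m z)
    (hv : ∀ z, v ((starRingEnd ℂ) z) = (starRingEnd ℂ) (v z)) (hr : ∀ z : ℂ, z.im = 0 → 0 ≤ (v z).re)
    (hΛ : 0 ≤ Λ) (hΛL : Λ ≤ L) (hη0 : 0 ≤ η1) :
    3 * ∑ z ∈ Z.filter (fun z => 0 ≤ z.im), cw m z * (v z).re -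
      (∑ z ∈ Z, ∑ w ∈ Z, (m z : ℂ) * (m w : ℂ) * (v z * v w * kap (Λ * (z - w)) ^ 2)).re ≤
    2 * (((Z.filter (fun z => 0 ≤ z.im)).filter (fun z => |z.re - t| ≤ th |z.im|)).card : ℝ) +
    10 * ∑ z ∈ Z.filter (fun z => 0 ≤ z.im), cw m z *
      (if |z.re - t| ≤ th |z.im| then 2 * ‖1 - v z‖ + η1 else 2 * ‖v z‖ * Real.exp (|z.im| * L)) := by
  obtain ⟨om, hom2, homc, homre⟩ := exists_om v hv hr
  obtain ⟨E, _, _, g, hg⟩ := gram1 Λ
  set K : ℂ → ℂ → ℂ := fun z w => om z * om w * kap (Λ * (z - w)) with hK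
  have hk : ∀ z w, inner ℂ (om z • g z) (om w • g w) = K ((starRingEnd ℂ) z) w := by
    intro z w
    rw [inner_smul_left, inner_smul_right, hg]
    simp only [hK]
    rw [homc, ← kap_even (Λ * ((starRingEnd ℂ) z - w))]
    have : -(Λ * ((starRingEnd ℂ) z - w)) = Λ * (w - (starRingEnd ℂ) z) := by ring
    rw [this]; ring
  have hsym : ∀ z w, K z w = K w z := by
    intro z w
    simp only [hK]
    rw [← kap_even (Λ * (z - w))]
    have : -(Λ * (z - w)) = Λ * (w - z) := by ring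
    rw [this]; ring
  set κ : ℂ → ℝ := fun a => if |a.re - t| ≤ th |a.im| then (if cw m a = 1 then 1 else 2) else 0
    with hκ
  have hmain := clus K (fun z => om z • g z) hk hsym Z hZ m hm1 hmc (fun z => z) κ
    (fun a => by simp only [hκ]; split_ifs <;> norm_num)
    (fun a => by simp only [hκ]; split_ifs <;> norm_num)
  have hKK : ∀ z, K z z = v z := by
    intro z
    simp only [hK]
    rw [sub_self, mul_zero, kap_zero, mul_one, ← sq, hom2]
  have hn2 : ∀ z, ‖om z‖ * ‖om z‖ = ‖v z‖ := by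
    intro z
    rw [← norm_mul, ← sq, hom2]
  have hnc : ∀ z, ‖om ((starRingEnd ℂ) z)‖ = ‖om z‖ := by
    intro z; rw [homc, RCLike.norm_conj]
  have hKb : ∀ z, (K ((starRingEnd ℂ) z) z).re ≤ ‖v z‖ * Real.exp (|z.im| * L) := by
    intro z
    refine (Complex.re_le_norm _).trans ?_
    simp only [hK]
    rw [norm_mul, norm_mul, hnc, hn2]
    exact mul_le_mul_of_nonneg_left (kap_im_le hΛ hΛL z) (norm_nonneg _)
  have hpair : (∑ z ∈ Z, ∑ w ∈ Z, (m z : ℂ) * (m w : ℂ) * (v z * v w * kap (Λ * (z - w)) ^ 2)).re =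
      (∑ z ∈ Z, ∑ w ∈ Z, (m z : ℂ) * (m w : ℂ) * (K z w) ^ 2).re := by
    congr 1
    refine Finset.sum_congr rfl fun z _ => Finset.sum_congr rfl fun w _ => ?_
    simp only [hK]
    rw [← hom2 z, ← hom2 w]
    ring
  rw [hpair]
  set P := Z.filter (fun z => 0 ≤ z.im) with hP
  set cost : ℂ → ℝ := fun z => if |z.re - t| ≤ th |z.im| then 2 * ‖1 - v z‖ + η1 else
    2 * ‖v z‖ * Real.exp (|z.im| * L) with hcost
  -- one point
  have key : ∀ a ∈ P, 3 * (cw m a * (v a).re) -
      2 * (if |a.re - t| ≤ th |a.im| then 1 else 0) - 10 * (cw m a * cost a) ≤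
      ∑ z ∈ Cl Z (fun z => z) a, ∑ w ∈ Cl Z (fun z => z) a, κ a / Wc Z m (fun z => z) a *
        (cw m z * cw m w) *
          ((K ((starRingEnd ℂ) z) w).re + (K ((starRingEnd ℂ) z) ((starRingEnd ℂ) w)).re) - κ a ^ 2 -
          ∑ z ∈ Cl Z (fun z => z) a, 2 * cw m z * ((K ((starRingEnd ℂ) z) z).re - (K z z).re) := by
    intro a ha
    have haZ : a ∈ Z := (Finset.mem_filter.1 ha).1
    have hWa : Wc Z m (fun z => z) a = cw m a := by
      have h1 : Wc Z m (fun z => z) a = ∑ z ∈ Cl Z (fun z => z) a, cw m z := rfl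
      rw [h1, cl_id ha, Finset.sum_singleton]
    rw [cl_id ha, hWa]
    simp only [Finset.sum_singleton]
    have hreC : (K ((starRingEnd ℂ) a) ((starRingEnd ℂ) a)).re = (v a).re := by
      rw [hKK, hv, Complex.conj_re]
    rw [hreC, hKK]
    set X := (K ((starRingEnd ℂ) a) a).re with hX
    have hcw0 := cw_nonneg m a
    have hXb := hKb a
    rw [← hX] at hXb
    by_cases hact : |a.re - t| ≤ th |a.im|
    · have hc : cost a = 2 * ‖1 - v a‖ + η1 := by simp only [hcost]; rw [if_pos hact]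
      rw [if_pos hact, hc]
      have e2 := (re_v (v a)).1
      have e2' := (re_v (v a)).2
      have e0 := norm_nonneg (1 - v a)
      rcases cw_cases hm1 haZ with ⟨h1, him⟩ | h2
      · have hκa : κ a = 1 := by simp only [hκ]; rw [if_pos hact, if_pos h1]
        have hca : (starRingEnd ℂ) a = a := Complex.conj_eq_iff_im.mpr him
        have hXv : X = (v a).re := by rw [hX, hca, hKK]
        rw [hκa, h1, hXv]
        norm_num
        linarith
      · have h1 : cw m a ≠ 1 := fun h => by rw [h] at h2; norm_num at h2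
        have hκa : κ a = 2 := by simp only [hκ]; rw [if_pos hact, if_neg h1]
        rw [hκa]
        set w := cw m a
        have hw0 : 0 < w := by linarith
        have e1 : 2 / w * (w * w) * (X + (v a).re) = 2 * w * (X + (v a).re) := by
          field_simp
        rw [e1]
        have e3 : w * (1 - ‖1 - v a‖) ≤ w * (v a).re := mul_le_mul_of_nonneg_left e2 hw0.le
        have e5 : 0 ≤ w * ‖1 - v a‖ := by positivity
        have e6 : 0 ≤ w * η1 := by positivity
        nlinarith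
    · have hc : cost a = 2 * ‖v a‖ * Real.exp (|a.im| * L) := by
        simp only [hcost]; rw [if_neg hact]
      have hκa : κ a = 0 := by simp only [hκ]; rw [if_neg hact]
      rw [if_neg hact, hc, hκa]
      have e1 : (v a).re ≤ ‖v a‖ := Complex.re_le_norm _
      have hL : 0 ≤ L := hΛ.trans hΛL
      have e2 : 1 ≤ Real.exp (|a.im| * L) := Real.one_le_exp (mul_nonneg (abs_nonneg _) hL)
      have e3 : ‖v a‖ ≤ ‖v a‖ * Real.exp (|a.im| * L) := le_mul_of_one_le_right (norm_nonneg _) e2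
      have e4 : cw m a * (v a).re ≤ cw m a * (‖v a‖ * Real.exp (|a.im| * L)) :=
        mul_le_mul_of_nonneg_left (e1.trans e3) hcw0
      have e5 : cw m a * X ≤ cw m a * (‖v a‖ * Real.exp (|a.im| * L)) :=
        mul_le_mul_of_nonneg_left hXb hcw0
      have e6 : 0 ≤ cw m a * (‖v a‖ * Real.exp (|a.im| * L)) := by positivity
      have e7 : (0:ℝ) / cw m a * (cw m a * cw m a) * (X + (v a).re) = 0 := by
        rw [zero_div, zero_mul, zero_mul]
      rw [e7]
      nlinarith
  -- the sum over the points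
  have hsum := Finset.sum_le_sum key
  rw [Finset.sum_sub_distrib, Finset.sum_sub_distrib, ← Finset.mul_sum, ← Finset.mul_sum,
    ← Finset.mul_sum, Finset.sum_boole] at hsum
  rw [Finset.image_id'] at hmain
  linarith

end Pool.Agent.J4.H62.LD
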