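import Pool.Agent.Y745.SW.Blk7
import Pool.Agent.Y141.SW.Exc
import Pool.Agent.J4.H62.LD.BlkX

set_option autoImplicit false

/-! The law of the size of zeta near the distinct zeros, in dyadic blocks. -/

namespace Pool.Agent.J4.H62.LD

open Filter Topology MeasureTheory Complex H370 TH803UC TH803CL Pool.Agent.Y745.SW Pool.Agent.Y141.SW

noncomputable section

/-- the normalised size of zeta at height `t`, with the normalisation at `T` -/
def nz (T t : ℝ) : ℝ := Real.log ‖riemannZeta (1 / 2 + t * I)‖ / Real.sqrt (Real.log (Real.log T) / 2)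

/-- the exceptional places near `x` -/
def exs (a b T H x : ℝ) : Set ℝ := {t : ℝ | |t - x| ≤ H / Real.log T ∧ ¬ (a < nz T t ∧ nz T t < b)}

/-- the normalised size of zeta is between `a` and `b` at almost all places near the zero -/
def cls (a b η H T : ℝ) (s : ℂ) : Prop :=
  volume (exs a b T H s.im) ≤ ENNReal.ofReal (η / Real.log T)

open Classical in
/-- the zeros near bad places -/
lemma bad_X {U1 U2 Y0 L r M1 H η : ℝ} (hL : 0 < L) (hHr : 4 * H ≤ r) (hM1 : 0 ≤ M1) {X : Set ℝ} (hX : MeasurableSet X)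
    (hXf : volume X ≠ ⊤) :
    (∑ s ∈ (ZN U1 U2 Y0 L).filter (fun s => lc U1 U2 Y0 L (r / (2 * L)) s.im ≤ M1 ∧
        η / L < (volume.restrict X).real {t : ℝ | |s.im - t| ≤ H / L}), (mult riemannZeta s : ℝ)) * (η / L) ≤
      M1 * volume.real X := by
  set G := (ZN U1 U2 Y0 L).filter (fun s => lc U1 U2 Y0 L (r / (2 * L)) s.im ≤ M1 ∧
        η / L < (volume.restrict X).real {t : ℝ | |s.im - t| ≤ H / L}) with hG
  obtain ⟨h1, h2⟩ := count_w G (fun s => (mult riemannZeta s : ℝ)) (fun _ => H / L) X hXf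
  have h3 : (∑ s ∈ G, (mult riemannZeta s : ℝ)) * (η / L) ≤
      ∑ s ∈ G, (mult riemannZeta s : ℝ) * (volume.restrict X).real {t : ℝ | |s.im - t| ≤ H / L} := by
    rw [Finset.sum_mul]
    refine Finset.sum_le_sum fun s hs => mul_le_mul_of_nonneg_left ?_ (Nat.cast_nonneg _)
    rw [hG, Finset.mem_filter] at hs
    exact hs.2.2.le
  refine h3.trans ?_
  rw [← h2]
  have h4 : ∀ t : ℝ, nw G (fun s => (mult riemannZeta s : ℝ)) (fun _ => H / L) t ≤ M1 := by
    intro t
    unfold nw
    by_cases h : ∃ s0 ∈ G, |s0.im - t| ≤ H / L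
    · obtain ⟨s0, hs0, hst⟩ := h
      have hs0' := hs0
      rw [hG, Finset.mem_filter] at hs0'
      refine le_trans ?_ hs0'.2.1
      unfold lc
      refine le_trans ?_ (Finset.sum_filter _ _).symm.le
      have hsub : G ⊆ ZN U1 U2 Y0 L := by rw [hG]; exact Finset.filter_subset _ _
      refine le_trans ?_ (Finset.sum_le_sum_of_subset_of_nonneg hsub ?_)
      · refine Finset.sum_le_sum fun s hs => ?_
        split_ifs with h5 h6 h6
        · rw [mul_one]
        · exfalso
          apply h6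
          have e : H / L + H / L ≤ r / (2 * L) := by
            rw [← add_div, div_le_div_iff₀ hL (by linarith)]
            nlinarith
          calc |s.im - s0.im| = |(s.im - t) - (s0.im - t)| := by congr 1; ring
            _ ≤ |s.im - t| + |s0.im - t| := abs_sub _ _
            _ ≤ r / (2 * L) := by linarith
        · rw [mul_zero]; exact Nat.cast_nonneg _
        · rw [mul_zero]
      · intro s _ _
        split_ifs
        · exact Nat.cast_nonneg _
        · exact le_rfl
    · push Not at h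
      have : ∑ s ∈ G, (mult riemannZeta s : ℝ) * (if |s.im - t| ≤ H / L then (1:ℝ) else 0) = 0 := by
        refine Finset.sum_eq_zero fun s hs => ?_
        rw [if_neg (not_le.2 (h s hs)), mul_zero]
      rw [this]
      exact hM1
  have h5 := setIntegral_mono_on (μ := volume) (s := X) (f := nw G (fun s => (mult riemannZeta s : ℝ)) (fun _ => H / L))
    (g := fun _ => M1) h1 (integrableOn_const hXf) hX (fun t _ => h4 t)
  rw [setIntegral_const, smul_eq_mul] at h5
  linarith

lemma small_log (δ : ℝ) (hδ : 0 < δ) : ∀ᶠ T : ℝ in atTop, Real.log T ≤ δ * T := by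
  have h1 := Real.isLittleO_log_id_atTop.def (c := δ) hδ
  filter_upwards [h1, eventually_ge_atTop 1] with T hT hT1
  rw [Real.norm_eq_abs, Real.norm_eq_abs, id, abs_of_pos (by linarith : 0 < T)] at hT
  exact (le_abs_self _).trans hT

open Classical in
/-- the law in a dyadic block -/
theorem block_law' (hζ : GoodL riemannZeta) (hBLK : P_BLKx) (hIND : P_IND) (hBV : P_BV) (hDX : P_DX) (hLL : P_LL)
    {a b ε η H : ℝ} (hab : a < b) (hε : 0 < ε) (hη : 0 < η) (hH : 0 < H) : ∃ Y0 : ℝ, 1 ≤ Y0 ∧ ∀ᶠ T : ℝ in atTop,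
    ∃ U1 U2 : ℝ, T ≤ U1 ∧ U1 ≤ T + 1 ∧ 2 * T - 1 ≤ U2 ∧ U2 ≤ 2 * T ∧
    ((3 - cMTinv) / 2 * Gm01 a b - ε) * (T * (Real.log T / (2 * Real.pi))) ≤
      (((ZL U1 U2).filter (fun s => |(zz s).im| * Real.log T < Y0 ∧ cls a b η H T s)).card : ℝ) ∧
    (Gm01 a b - ε) * (T * (Real.log T / (2 * Real.pi))) ≤
      ∑ s ∈ (Zf riemannZeta U1 U2).filter (fun s => |(zz s).im| * Real.log T < Y0 ∧ cls a b η H T s),
        (mult riemannZeta s : ℝ) := by
  have hpi := Real.pi_pos
  obtain ⟨θ, hθ, hab', hG⟩ := Gm01_shrink hab (show 0 < ε / 8 by positivity)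
  obtain ⟨r, Y0, M1, εs, τ, B, hrH, hY0, hM1, hεs, hεs2, hτ, hτε, hB, hblk⟩ :=
    hBLK (min (ε / (16 * Real.pi)) 1) H (by positivity) (min_le_right _ _) hH
  refine ⟨Y0, hY0, ?_⟩
  obtain ⟨c, hc, C0, T0, hC0, hT0, hef⟩ := explicit_formula hζ
  obtain ⟨⟨K0, hK0⟩, hblk⟩ := hblk c C0 hc
  set K1 : ℝ := |K0| + 1 with hK1
  have hK10 : 0 < K1 := by positivity
  set δ' : ℝ := min (ε / 24) (1 / (4 * K1)) with hδ'
  have hδ'0 : 0 < δ' := by positivity
  have hδ'1 : δ' ≤ ε / 24 := min_le_left _ _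
  have hδ'2 : δ' * K1 ≤ 1 / 4 := by
    have : δ' ≤ 1 / (4 * K1) := min_le_right _ _
    calc δ' * K1 ≤ 1 / (4 * K1) * K1 := mul_le_mul_of_nonneg_right this hK10.le
      _ = 1 / 4 := by field_simp
  have hδ'3 : δ' ≤ 1 / 4 := by
    have : 1 ≤ K1 := by rw [hK1]; linarith [abs_nonneg K0]
    nlinarith
  have h4τ : 4 * τ ≤ 1 := by linarith
  have hr0 : 0 < r := by linarith
  have hind := hIND Rf Rf_cont (fun x _ => Rf_nonneg x) B hB c hc εs τ (4 * τ) hεs hεs2 hτ hτε le_rfl h4τ
    ⟨K0, hK0⟩ (a + θ) (b - θ) δ' hab' hδ'0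
  have hbv := hBV (r + H) δ' (by linarith) hδ'0
  obtain ⟨W, hW, hX⟩ := exc hBV hDX hLL (θ / 8) (ε * η / (16 * Real.pi * M1)) (by positivity) (by positivity)
  have hσ : ∀ᶠ T : ℝ in atTop, 8 * (W + 1) / θ ≤ Real.sqrt (Real.log (Real.log T)) :=
    (Real.tendsto_sqrt_atTop.comp loglog_tendsto).eventually_ge_atTop _
  filter_upwards [hblk, hK0, hind, hbv, hX, hσ, Real.tendsto_log_atTop.eventually_ge_atTop (r + H + 10),
    eventually_ge_atTop T0, eventually_ge_atTop 10, small_log (δ' / 4) (by positivity)] with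
    T tblk tK0 tind tbv tX tσ tL tT0 tT1 tsl
  obtain ⟨U1, U2, hU1, hU1', hU2, hU2', heft⟩ := hef T tT0
  refine ⟨U1, U2, hU1, hU1', hU2, hU2', ?_⟩
  have hefd : EFD c C0 T U1 U2 := ⟨hc, hU1, hU1', hU2, hU2', heft⟩
  obtain ⟨tm, tI1, tI2⟩ := tind
  obtain ⟨Bd, hBdm, hBd1, hBd2, hBd3⟩ := tbv
  obtain ⟨X0, hX0v, hX0⟩ := tX
  set L := Real.log T with hL
  set σ := Real.sqrt (Real.log L) with hσd
  have hL0 : 0 < L := by linarith
  have hT0 : 0 < T := by linarith
  have hσ0 : 0 < σ := lt_of_lt_of_le (by positivity) tσ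
  have hU1one : 1 ≤ U1 := by linarith
  set G' : ℝ := (ProbabilityTheory.gaussianReal 0 1).real (Set.Ioo (a + θ) (b - θ)) with hG'
  have hG'0 : 0 ≤ G' := measureReal_nonneg
  have hG'1 : Gm01 a b - ε / 8 ≤ G' := hG
  -- the exceptional set
  set X := toMeasurable volume X0 with hXd
  have hXm : MeasurableSet X := measurableSet_toMeasurable _ _
  have hXv : volume X ≤ ENNReal.ofReal (ε * η / (16 * Real.pi * M1) * T) := by
    rw [hXd, measure_toMeasurable]; exact hX0v
  have hXf : volume X ≠ ⊤ := ne_top_of_le_ne_top ENNReal.ofReal_ne_top hXv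
  have hXr : volume.real X ≤ ε * η / (16 * Real.pi * M1) * T := by
    have := ENNReal.toReal_mono ENNReal.ofReal_ne_top hXv
    rwa [ENNReal.toReal_ofReal (by positivity)] at this
  set SS := SB (a + θ) (b - θ) T with hSS
  have hSSI : SS ⊆ Set.Icc (T + L) (2 * T - L) := fun t ht => ht.1
  have hSSf : volume SS ≠ ⊤ := ne_top_of_le_ne_top (by simp) (measure_mono hSSI)
  set Ed : Set ℝ := Set.Icc (T + L) (T + 3 * L) ∪ Set.Icc (2 * T - 3 * L) (2 * T - L) with hEd
  have hEdm : MeasurableSet Ed := measurableSet_Icc.union measurableSet_Icc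
  set S := SS \ (Bd ∪ Ed) with hS
  have hSm : MeasurableSet S := tm.diff (hBdm.union hEdm)
  have hSI : S ⊆ Set.Icc (T + L) (2 * T - L) := fun t ht => hSSI ht.1
  -- the measure of `S`
  have hEdv : volume.real Ed ≤ δ' * T := by
    have h1 : volume.real (Set.Icc (T + L) (T + 3 * L)) = 2 * L := by
      rw [Real.volume_real_Icc_of_le (by linarith)]; ring
    have h2 : volume.real (Set.Icc (2 * T - 3 * L) (2 * T - L)) = 2 * L := by
      rw [Real.volume_real_Icc_of_le (by linarith)]; ring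
    have h3 := measureReal_union_le (μ := volume) (Set.Icc (T + L) (T + 3 * L)) (Set.Icc (2 * T - 3 * L) (2 * T - L))
    rw [h1, h2] at h3
    linarith
  have hEdf : volume Ed ≠ ⊤ := by
    refine ((measure_union_le _ _).trans_lt ?_).ne
    simp
  have hvol : volume.real SS ≤ volume.real S + (volume.real Bd + volume.real Ed) := by
    have h1 : SS ⊆ S ∪ (Bd ∪ Ed) := fun t ht => by
      by_cases h : t ∈ Bd ∪ Ed
      · exact Or.inr h
      · exact Or.inl ⟨ht, h⟩
    have hSf : volume S ≠ ⊤ := ne_top_of_le_ne_top (by simp) (measure_mono hSI)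
    have hBf : volume Bd ≠ ⊤ := ne_top_of_le_ne_top (by simp) (measure_mono hBd1)
    have hBE : volume (Bd ∪ Ed) ≠ ⊤ :=
      (measure_union_lt_top (lt_top_iff_ne_top.2 hBf) (lt_top_iff_ne_top.2 hEdf)).ne
    refine (measureReal_mono h1 ?_).trans ((measureReal_union_le _ _).trans
      (add_le_add le_rfl (measureReal_union_le _ _)))
    exact (measure_union_lt_top (lt_top_iff_ne_top.2 hSf) (lt_top_iff_ne_top.2 hBE)).ne
  have hSlow : T * G' - 3 * δ' * T ≤ volume.real S := by
    have := (abs_le.1 tI1).1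
    linarith
  -- the weight
  have hZ0 : 0 ≤ Zq Rf c B εs τ (4 * τ) T := by
    unfold Zq
    refine mul_nonneg (by norm_num) (intervalIntegral.integral_nonneg h4τ fun y hy => ?_)
    exact mul_nonneg (Rf_nonneg y) (Finset.sum_nonneg fun n _ => by positivity)
  have hZK : Zq Rf c B εs τ (4 * τ) T ≤ K1 := by
    have := le_abs_self K0
    rw [hK1]; linarith
  have hDqc : Continuous (fun t : ℝ => Dq Rf c B εs τ (4 * τ) T t) :=
    Dq_cont hB hεs hεs2 hτ hτε le_rfl h4τ Rf_cont hL0
  have hDq0 : ∀ t, 0 ≤ Dq Rf c B εs τ (4 * τ) T t := fun t =>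
    Dq_nonneg hεs hεs2 hτ hτε le_rfl h4τ (fun x _ => Rf_nonneg x) t
  have hDqS : (∫ t in S, Dq Rf c B εs τ (4 * τ) T t) ≤ volume.real S * Zq Rf c B εs τ (4 * τ) T + T := by
    have h1 : (∫ t in S, Dq Rf c B εs τ (4 * τ) T t) ≤ ∫ t in SS, Dq Rf c B εs τ (4 * τ) T t :=
      setIntegral_mono_set ((hDqc.continuousOn.integrableOn_compact isCompact_Icc).mono_set hSSI)
        (Filter.Eventually.of_forall hDq0) (Filter.Eventually.of_forall fun t ht => ht.1)
    have h2 := (abs_le.1 tI2).2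
    have h3 : T * G' * Zq Rf c B εs τ (4 * τ) T ≤ (volume.real S + 3 * δ' * T) * Zq Rf c B εs τ (4 * τ) T :=
      mul_le_mul_of_nonneg_right (by linarith) hZ0
    have h4 : 3 * δ' * T * Zq Rf c B εs τ (4 * τ) T ≤ 3 * T * (1 / 4) := by
      have h5 : δ' * Zq Rf c B εs τ (4 * τ) T ≤ 1 / 4 :=
        (mul_le_mul_of_nonneg_left hZK hδ'0.le).trans hδ'2
      nlinarith
    nlinarith
  obtain ⟨hdense, hmain⟩ := tblk U1 U2 hefd
  obtain ⟨hmain1, hmain2⟩ := hmain S hSm hSI
  have hmain1 := hmain1 hDqS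
  -- the bad zeros
  set Dn := (ZN U1 U2 Y0 L).filter (fun s => T + 2 * L ≤ s.im ∧
          s.im ≤ 2 * T - 2 * L ∧ M1 < lc U1 U2 Y0 L (r / (2 * L)) s.im) with hDn
  set BX := (ZN U1 U2 Y0 L).filter (fun s => lc U1 U2 Y0 L (r / (2 * L)) s.im ≤ M1 ∧
        η / L < (volume.restrict X).real {t : ℝ | |s.im - t| ≤ H / L}) with hBX
  have hBXle : ∑ s ∈ BX, (mult riemannZeta s : ℝ) ≤ ε / (16 * Real.pi) * (T * L) := by
    have h1 := bad_X (U1 := U1) (U2 := U2) (Y0 := Y0) (L := L) (r := r) (M1 := M1) (H := H) (η := η) hL0 hrH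
      hM1.le hXm hXf
    rw [← hBX] at h1
    have h2 : M1 * volume.real X ≤ M1 * (ε * η / (16 * Real.pi * M1) * T) := mul_le_mul_of_nonneg_left hXr hM1.le
    have e1 : M1 * (ε * η / (16 * Real.pi * M1) * T) = (ε / (16 * Real.pi) * (T * L)) * (η / L) := by
      field_simp
    rw [e1] at h2
    exact le_of_mul_le_mul_right (h1.trans h2) (by positivity)
  have hDnle : ∑ s ∈ Dn, (mult riemannZeta s : ℝ) ≤ ε / (16 * Real.pi) * (T * L) := by
    refine hdense.trans ?_
    exact mul_le_mul_of_nonneg_right (min_le_left _ _) (by positivity)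
  -- the classification
  have hcl : ∀ s ∈ Zf riemannZeta U1 U2, |(zz s).im| * L < Y0 → (∃ t ∈ S, |s.im - t| ≤ r / L) →
      cls a b η H T s ∨ s ∈ Dn ∨ s ∈ BX := by
    rintro s hsZ hsn ⟨t', ht'S, hst'⟩
    by_cases hbad : s ∈ Dn ∨ s ∈ BX
    · exact Or.inr hbad
    left
    push Not at hbad
    obtain ⟨hb1, hb2⟩ := hbad
    have hsN : s ∈ ZN U1 U2 Y0 L := by
      unfold ZN; rw [Finset.mem_filter]; exact ⟨hsZ, hsn⟩
    obtain ⟨⟨⟨ht1, ht2⟩, ht3, ht4⟩, htB⟩ := ht'S
    rw [Set.mem_union, not_or, hEd, Set.mem_union, not_or] at htB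
    obtain ⟨htBd, htE1, htE2⟩ := htB
    have hrL : r / L ≤ 1 := by rw [div_le_one hL0]; linarith
    have hHL : H / L ≤ 1 := by rw [div_le_one hL0]; linarith
    have ht5 : T + 3 * L < t' := by
      by_contra h
      push Not at h
      exact htE1 ⟨ht1, h⟩
    have ht6 : t' < 2 * T - 3 * L := by
      by_contra h
      push Not at h
      exact htE2 ⟨h, ht2⟩
    have hst2 := abs_le.1 (hst'.trans hrL)
    have hs1 : T + 2 * L ≤ s.im := by linarith [hst2.1]
    have hs2 : s.im ≤ 2 * T - 2 * L := by linarith [hst2.2]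
    have hlc : lc U1 U2 Y0 L (r / (2 * L)) s.im ≤ M1 := by
      by_contra h
      push Not at h
      exact hb1 (by rw [hDn, Finset.mem_filter]; exact ⟨hsN, hs1, hs2, h⟩)
    have hXs : (volume.restrict X).real {t : ℝ | |s.im - t| ≤ H / L} ≤ η / L := by
      by_contra h
      push Not at h
      exact hb2 (by rw [hBX, Finset.mem_filter]; exact ⟨hsN, hlc, h⟩)
    -- the exceptional places are in `X`
    have hex : exs a b T H s.im ⊆ {t : ℝ | |s.im - t| ≤ H / L} ∩ X := by
      rintro t ⟨ht7, ht8⟩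
      have ht7' : |t - s.im| ≤ H / L := ht7
      refine ⟨by rw [Set.mem_setOf_eq, abs_sub_comm]; exact ht7', ?_⟩
      by_contra htX
      apply ht8
      have htX0 : t ∉ X0 := fun h => htX (subset_toMeasurable _ _ h)
      have ht9 := abs_le.1 (ht7'.trans hHL)
      have htT : t ∈ Set.Icc T (2 * T) := ⟨by linarith [ht9.1], by linarith [ht9.2]⟩
      obtain ⟨-, hloc⟩ := hX0 t htT htX0
      have h1 := hloc 0 (by rw [abs_zero]; positivity)
      rw [add_zero] at h1
      have h2 := hBd3 t' ⟨by linarith, by linarith⟩ htBd (t - t') (by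
        calc |t - t'| = |(t - s.im) + (s.im - t')| := by congr 1; ring
          _ ≤ |t - s.im| + |s.im - t'| := abs_add_le _ _
          _ ≤ H / L + r / L := by linarith
          _ = (r + H) / L := by rw [add_div]; ring)
      rw [add_sub_cancel] at h2
      have h3 := (Complex.abs_re_le_norm _).trans h2
      rw [Complex.sub_re] at h3
      set y := Real.log ‖riemannZeta (1 / 2 + t * I)‖ with hy
      have h4 : |y - (Px T t').re| ≤ θ / 8 * σ + (W + 1) := by
        have e : y - (Px T t').re = (y - (Px T t).re) + ((Px T t).re - (Px T t').re) := by ring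
        rw [e]
        refine (abs_add_le _ _).trans ?_
        linarith
      have h5 : nz T t = Real.sqrt 2 * (y / σ) := by
        unfold nz
        rw [← hL, Real.sqrt_div' _ (by norm_num), ← hσd, ← hy]
        field_simp
      have h6 : |Real.sqrt 2 * (y / σ) - Real.sqrt 2 * ((Px T t').re / σ)| ≤ θ := by
        have h7 : Real.sqrt 2 ≤ 2 := by
          rw [Real.sqrt_le_left (by norm_num)]; norm_num
        have h8 := Real.sqrt_nonneg 2
        have h9 : |y / σ - (Px T t').re / σ| ≤ θ / 8 + (W + 1) / σ := by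
          rw [← sub_div, abs_div, abs_of_pos hσ0, div_le_iff₀ hσ0]
          refine h4.trans (le_of_eq ?_)
          field_simp
        have h10 : (W + 1) / σ ≤ θ / 8 := by
          rw [div_le_div_iff₀ hσ0 (by norm_num)]
          rw [div_le_iff₀ hθ] at tσ
          linarith
        rw [← mul_sub, abs_mul, abs_of_nonneg h8]
        calc Real.sqrt 2 * |y / σ - (Px T t').re / σ| ≤ 2 * (θ / 8 + (W + 1) / σ) := by gcongr
          _ ≤ θ := by linarith
      have h11 := abs_le.1 h6
      rw [h5]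
      constructor
      · linarith [h11.1]
      · linarith [h11.2]
    unfold cls
    refine (measure_mono hex).trans ?_
    rw [Measure.real, Measure.restrict_apply (ball_meas _ _)] at hXs
    have hf : volume ({t : ℝ | |s.im - t| ≤ H / L} ∩ X) ≠ ⊤ :=
      ne_top_of_le_ne_top hXf (measure_mono Set.inter_subset_right)
    rw [← ENNReal.ofReal_toReal hf]
    exact ENNReal.ofReal_le_ofReal hXs
  have hm1 : ∀ s ∈ Zf riemannZeta U1 U2, (1:ℝ) ≤ mult riemannZeta s := by
    intro s hs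
    have hm := (mem_Zf hζ hU1one).mp hs
    have h8 : 1 ≤ mult riemannZeta s := Loc.mult_pos' hζ (by linarith [hm.2.2.1]) hm.2.2.2.2
    exact_mod_cast h8
  have hDnZ : ∀ s ∈ Dn, s ∈ Zf riemannZeta U1 U2 := fun s hs =>
    (Finset.mem_filter.1 (Finset.mem_filter.1 hs).1).1
  have hBXZ : ∀ s ∈ BX, s ∈ Zf riemannZeta U1 U2 := fun s hs =>
    (Finset.mem_filter.1 (Finset.mem_filter.1 hs).1).1
  have hcM1 : 1 < cMTinv := cMTinv_gt_one
  have hcM2 := cMTinv_lt
  have hpos : 0 ≤ T * (L / (2 * Real.pi)) := by positivity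
  have hbadle : ε / (16 * Real.pi) * (T * L) = ε / 8 * (T * (L / (2 * Real.pi))) := by
    field_simp; ring
  rw [hbadle] at hBXle hDnle
  have hminT : min (ε / (16 * Real.pi)) 1 * T ≤ ε / 8 * T := by
    refine mul_le_mul_of_nonneg_right ((min_le_left _ _).trans ?_) hT0.le
    refine div_le_div_of_nonneg_left hε.le (by norm_num) ?_
    nlinarith [Real.pi_gt_three]
  constructor
  · -- distinct zeros
    set near := (ZL U1 U2).filter (fun s => |(zz s).im| * L < Y0 ∧ ∃ t ∈ S, |s.im - t| ≤ r / L) with hnear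
    set good := (ZL U1 U2).filter (fun s => |(zz s).im| * L < Y0 ∧ cls a b η H T s) with hgood
    have hsub : near ⊆ good ∪ (Dn ∪ BX) := by
      intro s hs
      rw [hnear, Finset.mem_filter] at hs
      obtain ⟨hsL, hsn, hst⟩ := hs
      have hsZ : s ∈ Zf riemannZeta U1 U2 := (Finset.mem_filter.1 hsL).1
      rw [Finset.mem_union, Finset.mem_union]
      rcases hcl s hsZ hsn hst with h | h | h
      · left; rw [hgood, Finset.mem_filter]; exact ⟨hsL, hsn, h⟩
      · exact Or.inr (Or.inl h)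
      · exact Or.inr (Or.inr h)
    have hcard : (near.card : ℝ) ≤ good.card + (Dn.card + BX.card) := by
      exact_mod_cast (Finset.card_le_card hsub).trans ((Finset.card_union_le _ _).trans
        (Nat.add_le_add_left (Finset.card_union_le _ _) _))
    have hc1 : (Dn.card : ℝ) ≤ ∑ s ∈ Dn, (mult riemannZeta s : ℝ) := by
      rw [← nsmul_one Dn.card, ← Finset.sum_const]
      exact Finset.sum_le_sum fun s hs => hm1 s (hDnZ s hs)
    have hc2 : (BX.card : ℝ) ≤ ∑ s ∈ BX, (mult riemannZeta s : ℝ) := by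
      rw [← nsmul_one BX.card, ← Finset.sum_const]
      exact Finset.sum_le_sum fun s hs => hm1 s (hBXZ s hs)
    have hlow : ((3 - cMTinv) / 2 * volume.real S - min (ε / (16 * Real.pi)) 1 * T) * (L / (2 * Real.pi)) ≥
        ((3 - cMTinv) / 2 * Gm01 a b - ε / 2) * (T * (L / (2 * Real.pi))) := by
      have e : ((3 - cMTinv) / 2 * Gm01 a b - ε / 2) * (T * (L / (2 * Real.pi))) =
        (((3 - cMTinv) / 2 * Gm01 a b - ε / 2) * T) * (L / (2 * Real.pi)) := by ring
      rw [e]
      refine mul_le_mul_of_nonneg_right ?_ (by positivity)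
      have h2 : (3 - cMTinv) / 2 * (T * G' - 3 * δ' * T) ≤ (3 - cMTinv) / 2 * volume.real S :=
        mul_le_mul_of_nonneg_left hSlow (by linarith)
      have h3 : (3 - cMTinv) / 2 * (T * (Gm01 a b - ε / 8)) ≤ (3 - cMTinv) / 2 * (T * G') :=
        mul_le_mul_of_nonneg_left (mul_le_mul_of_nonneg_left hG'1 hT0.le) (by linarith)
      have h4 : (3 - cMTinv) / 2 * (T * (ε / 8) + 3 * δ' * T) ≤ 1 * (T * (ε / 8) + 3 * (ε / 24) * T) := by
        have : (3 - cMTinv) / 2 ≤ 1 := by linarith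
        gcongr
      nlinarith
    nlinarith
  · -- all zeros
    set near := (Zf riemannZeta U1 U2).filter (fun s => |(zz s).im| * L < Y0 ∧ ∃ t ∈ S, |s.im - t| ≤ r / L) with hnear
    set good := (Zf riemannZeta U1 U2).filter (fun s => |(zz s).im| * L < Y0 ∧ cls a b η H T s) with hgood
    have hsub : near ⊆ good ∪ (Dn ∪ BX) := by
      intro s hs
      rw [hnear, Finset.mem_filter] at hs
      obtain ⟨hsZ, hsn, hst⟩ := hs
      rw [Finset.mem_union, Finset.mem_union]
      rcases hcl s hsZ hsn hst with h | h | h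
      · left; rw [hgood, Finset.mem_filter]; exact ⟨hsZ, hsn, h⟩
      · exact Or.inr (Or.inl h)
      · exact Or.inr (Or.inr h)
    have hun : ∀ A B : Finset ℂ, ∑ s ∈ A ∪ B, (mult riemannZeta s : ℝ) ≤
        ∑ s ∈ A, (mult riemannZeta s : ℝ) + ∑ s ∈ B, (mult riemannZeta s : ℝ) := by
      intro A B
      have := Finset.sum_union_inter (s₁ := A) (s₂ := B) (f := fun s => (mult riemannZeta s : ℝ))
      have h0 : 0 ≤ ∑ s ∈ A ∩ B, (mult riemannZeta s : ℝ) := Finset.sum_nonneg fun _ _ => Nat.cast_nonneg _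
      linarith
    have hcard : ∑ s ∈ near, (mult riemannZeta s : ℝ) ≤ ∑ s ∈ good, (mult riemannZeta s : ℝ) +
        (∑ s ∈ Dn, (mult riemannZeta s : ℝ) + ∑ s ∈ BX, (mult riemannZeta s : ℝ)) := by
      refine (Finset.sum_le_sum_of_subset_of_nonneg hsub fun _ _ _ => Nat.cast_nonneg _).trans ?_
      refine (hun _ _).trans (add_le_add le_rfl (hun _ _))
    have hlow : (volume.real S - min (ε / (16 * Real.pi)) 1 * T) * (L / (2 * Real.pi)) ≥
        (Gm01 a b - ε / 2) * (T * (L / (2 * Real.pi))) := by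
      have e : (Gm01 a b - ε / 2) * (T * (L / (2 * Real.pi))) =
        ((Gm01 a b - ε / 2) * T) * (L / (2 * Real.pi)) := by ring
      rw [e]
      refine mul_le_mul_of_nonneg_right ?_ (by positivity)
      nlinarith
    nlinarith

end

end Pool.Agent.J4.H62.LD
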