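import Pool.Agent.Y745.SW.Final
import Pool.Agent.J4.H62.LD.Law

set_option autoImplicit false

/-! The law of the size of zeta near the distinct zeros: assembly. -/

namespace Pool.Agent.J4.H62.LD

open Filter Topology MeasureTheory Complex H370 TH803UC TH803CL Pool.Agent.Y745.SW Pool.Agent.Y141.SW

noncomputable section

theorem a_BLKx : P_BLKx := blkx good_zeta Pool.Agent.Y248.SW.t_KER ersx Pool.Agent.Y655.SW.t_TRK
  Pool.Agent.Y627.SW.t_MN Pool.Agent.Y240.SW.t_DF a_EF a_SM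

open Classical in
/-- the lower bounds in `(T, 2T]` -/
theorem law_low {a b ε η H : ℝ} (hab : a < b) (hε : 0 < ε) (hη : 0 < η) (hH : 0 < H) :
    ∃ Y0 : ℝ, 1 ≤ Y0 ∧ ∀ᶠ T : ℝ in atTop,
    ((3 - cMTinv) / 2 * Gm01 a b - ε) * (NN riemannZeta T (2 * T) : ℝ) ≤
      (((Zf riemannZeta T (2 * T)).filter (fun s => s.re ≤ 1 / 2 ∧ |(zz s).im| * Real.log T < Y0 ∧
        cls a b η H T s)).card : ℝ) ∧
    (Gm01 a b - ε) * (NN riemannZeta T (2 * T) : ℝ) ≤
      ∑ s ∈ (Zf riemannZeta T (2 * T)).filter (fun s => cls a b η H T s), (mult riemannZeta s : ℝ) := by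
  have hpi := Real.pi_pos
  obtain ⟨Y0, hY0, hev⟩ := block_law' good_zeta a_BLKx a_IND Pool.Agent.Y895.SW.t_BV
    Pool.Agent.Y895.SW.t_DX ll hab (show 0 < ε / 2 by positivity) hη hH
  refine ⟨Y0, hY0, ?_⟩
  obtain ⟨C1, T1, hC1, hT1, hnn⟩ := nn_asymp good_zeta
  have hcM1 : 1 < cMTinv := cMTinv_gt_one
  have hcM2 := cMTinv_lt
  filter_upwards [hev, eventually_ge_atTop T1, Real.tendsto_log_atTop.eventually_ge_atTop
    (2 * Real.pi * C1 * (2 / ε) + 1), eventually_ge_atTop 10] with T t1 t3 t4 t5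
  obtain ⟨U1, U2, hU1, hU1', hU2, hU2', hc1, hc2⟩ := t1
  have hT0 : 0 < T := by linarith
  set L := Real.log T with hL
  have hL0 : 0 < L := by
    have : 0 < 2 * Real.pi * C1 * (2 / ε) := by positivity
    linarith
  have hsub : Zf riemannZeta U1 U2 ⊆ Zf riemannZeta T (2 * T) :=
    Pool.Agent.Y655.SW.zf_sub (by linarith) hU1 hU2'
  have hnn' := (abs_le.1 (hnn T t3 T (2 * T) le_rfl (by linarith) (by linarith) le_rfl)).2
  have hnn'' : (NN riemannZeta T (2 * T) : ℝ) ≤ T * (L / (2 * Real.pi)) + C1 * T := by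
    have e : T * L / (2 * Real.pi) = T * (L / (2 * Real.pi)) := by ring
    linarith
  have hg0 := Gm01_nonneg a b
  have hg1 := Gm01_le a b
  have hCT : C1 * T ≤ ε / 2 * (T * (L / (2 * Real.pi))) := by
    have h1 : 2 * Real.pi * C1 * (2 / ε) ≤ L := by linarith
    have h2 : C1 ≤ ε / 2 * (L / (2 * Real.pi)) := by
      rw [mul_div_assoc', le_div_iff₀ (by positivity)]
      have h3 : 2 * Real.pi * C1 * (2 / ε) = (C1 * (2 * Real.pi)) * 2 / ε := by ring
      rw [h3, div_le_iff₀ hε] at h1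
      linarith
    calc C1 * T ≤ (ε / 2 * (L / (2 * Real.pi))) * T := mul_le_mul_of_nonneg_right h2 hT0.le
      _ = _ := by ring
  have hX0 : 0 ≤ T * (L / (2 * Real.pi)) := by positivity
  -- a general comparison
  have key : ∀ q x : ℝ, q ≤ 1 → 0 ≤ x → (q - ε / 2) * (T * (L / (2 * Real.pi))) ≤ x →
      (q - ε) * (NN riemannZeta T (2 * T) : ℝ) ≤ x := by
    intro q x hq hx h
    by_cases hneg : q - ε < 0
    · exact (mul_nonpos_of_nonpos_of_nonneg hneg.le (Nat.cast_nonneg _)).trans hx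
    push Not at hneg
    have hC0 : 0 ≤ C1 * T := by positivity
    calc (q - ε) * (NN riemannZeta T (2 * T) : ℝ) ≤ (q - ε) * (T * (L / (2 * Real.pi)) + C1 * T) :=
          mul_le_mul_of_nonneg_left hnn'' hneg
      _ ≤ (q - ε) * (T * (L / (2 * Real.pi))) + 1 * (C1 * T) := by
          rw [mul_add]
          have : q - ε ≤ 1 := by linarith
          gcongr
      _ ≤ (q - ε) * (T * (L / (2 * Real.pi))) + ε / 2 * (T * (L / (2 * Real.pi))) := by linarith
      _ = (q - ε / 2) * (T * (L / (2 * Real.pi))) := by ring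
      _ ≤ x := h
  constructor
  · refine key _ _ (by nlinarith) (Nat.cast_nonneg _) (hc1.trans ?_)
    have : (ZL U1 U2).filter (fun s => |(zz s).im| * L < Y0 ∧ cls a b η H T s) ⊆
        (Zf riemannZeta T (2 * T)).filter (fun s => s.re ≤ 1 / 2 ∧ |(zz s).im| * L < Y0 ∧
          cls a b η H T s) := by
      intro s hs
      unfold ZL at hs
      rw [Finset.mem_filter, Finset.mem_filter] at hs
      rw [Finset.mem_filter]
      exact ⟨hsub hs.1.1, hs.1.2, hs.2.1, hs.2.2⟩
    exact_mod_cast Finset.card_le_card this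
  · refine key _ _ hg1 (Finset.sum_nonneg fun _ _ => Nat.cast_nonneg _) (hc2.trans ?_)
    refine Finset.sum_le_sum_of_subset_of_nonneg ?_ fun _ _ _ => Nat.cast_nonneg _
    intro s hs
    rw [Finset.mem_filter] at hs ⊢
    exact ⟨hsub hs.1, hs.2.2⟩

/-- the mass of a long interval and of its complement -/
lemma gm_tail {a b ε : ℝ} (hab : a < b) (hε : 0 < ε) : ∃ M : ℝ, -M < a ∧ b < M ∧
    1 - Gm01 a b - ε ≤ Gm01 (-M) a + Gm01 b M := by
  set μ := ProbabilityTheory.gaussianReal 0 1 with hμ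
  have : NullSingletonClass μ := ProbabilityTheory.nullSingletonClass_gaussianReal one_ne_zero
  set s : ℕ → Set ℝ := fun n => Set.Ioo (-(n:ℝ)) a ∪ Set.Ioo b n with hs
  have hmono : Monotone s := by
    intro m n hmn
    have : (m:ℝ) ≤ n := by exact_mod_cast hmn
    exact Set.union_subset_union (Set.Ioo_subset_Ioo (by linarith) le_rfl)
      (Set.Ioo_subset_Ioo le_rfl this)
  have hU : ⋃ n, s n = Set.Iio a ∪ Set.Ioi b := by
    ext x
    simp only [hs, Set.mem_iUnion, Set.mem_union, Set.mem_Ioo, Set.mem_Iio, Set.mem_Ioi]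
    constructor
    · rintro ⟨n, h | h⟩
      · exact Or.inl h.2
      · exact Or.inr h.1
    · intro h
      obtain ⟨n, hn⟩ := exists_nat_gt |x|
      rw [abs_lt] at hn
      refine ⟨n, ?_⟩
      rcases h with h | h
      · exact Or.inl ⟨hn.1, h⟩
      · exact Or.inr ⟨h, hn.2⟩
  have ht := tendsto_measure_iUnion_atTop (μ := μ) hmono
  rw [hU] at ht
  have ht2 : Tendsto (fun n => μ.real (s n)) atTop (𝓝 (μ.real (Set.Iio a ∪ Set.Ioi b))) :=
    (ENNReal.tendsto_toReal (measure_ne_top _ _)).comp ht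
  have hcompl : μ.real (Set.Iio a ∪ Set.Ioi b) = 1 - Gm01 a b := by
    have h1 : Set.Iio a ∪ Set.Ioi b = (Set.Icc a b)ᶜ := by
      ext x
      simp only [Set.mem_union, Set.mem_Iio, Set.mem_Ioi, Set.mem_compl_iff, Set.mem_Icc, not_and_or,
        not_le]
    rw [h1, probReal_compl_eq_one_sub measurableSet_Icc]
    have h2 : Gm01 a b = μ.real (Set.Ioo a b) := rfl
    rw [h2, measureReal_def, measureReal_def, (Ioo_ae_eq_Icc (μ := μ)).measure_eq]
  rw [hcompl] at ht2
  have h1 : ∀ᶠ n : ℕ in atTop, 1 - Gm01 a b - ε ≤ μ.real (s n) := ht2.eventually_const_le (by linarith)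
  have h2 : ∀ᶠ n : ℕ in atTop, |a| + |b| < (n:ℝ) :=
    tendsto_natCast_atTop_atTop.eventually_gt_atTop _
  obtain ⟨n, h3, h4⟩ := (h1.and h2).exists
  have h5 := neg_abs_le a
  have h6 := le_abs_self b
  have h7 := abs_nonneg a
  have h8 := abs_nonneg b
  refine ⟨n, by linarith, by linarith, h3.trans ?_⟩
  exact measureReal_union_le _ _

lemma nn_eq {T : ℝ} (hT : 1 ≤ T) : (NN riemannZeta T (2 * T) : ℝ) =
    ∑ s ∈ Zf riemannZeta T (2 * T), (mult riemannZeta s : ℝ) := by
  rw [NN_eq good_zeta hT]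
  push_cast
  rfl

/-- a zero cannot be in two classes -/
lemma cls_disj {a b a' b' η H T : ℝ} (hη0 : 0 < η) (hη : η < H) (hT : 1 < T) (hd : b ≤ a') {s : ℂ}
    (h1 : cls a b η H T s) (h2 : cls a' b' η H T s) : False := by
  have hL : 0 < Real.log T := Real.log_pos hT
  unfold cls at h1 h2
  have hcov : Set.Icc (s.im - H / Real.log T) (s.im + H / Real.log T) ⊆
      exs a b T H s.im ∪ exs a' b' T H s.im := by
    intro t ht
    have h3 : |t - s.im| ≤ H / Real.log T := by
      rw [abs_le]; constructor <;> linarith [ht.1, ht.2]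
    by_cases h4 : a < nz T t ∧ nz T t < b
    · right
      refine ⟨h3, fun h5 => ?_⟩
      linarith [h4.2, h5.1]
    · exact Or.inl ⟨h3, h4⟩
  have h5 := (measure_mono hcov).trans (measure_union_le (μ := volume) _ _)
  rw [Real.volume_Icc] at h5
  have h6 := h5.trans (add_le_add h1 h2)
  rw [← ENNReal.ofReal_add (by positivity) (by positivity),
    ENNReal.ofReal_le_ofReal_iff (by positivity)] at h6
  have h7 : η / Real.log T < H / Real.log T := div_lt_div_of_pos_right hη hL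
  linarith

open Classical in
/-- **the law near the zeros** -/
theorem law {a b ε η H : ℝ} (hab : a < b) (hε : 0 < ε) (hη : 0 < η) (hηH : η < H) :
    ∃ Y0 : ℝ, 1 ≤ Y0 ∧ ∀ᶠ T : ℝ in atTop,
    ((3 - cMTinv) / 2 * Gm01 a b - ε) * (NN riemannZeta T (2 * T) : ℝ) ≤
      (((Zf riemannZeta T (2 * T)).filter (fun s => s.re ≤ 1 / 2 ∧ |(zz s).im| * Real.log T < Y0 ∧
        cls a b η H T s)).card : ℝ) ∧
    |∑ s ∈ (Zf riemannZeta T (2 * T)).filter (fun s => cls a b η H T s), (mult riemannZeta s : ℝ) -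
      Gm01 a b * (NN riemannZeta T (2 * T) : ℝ)| ≤ ε * (NN riemannZeta T (2 * T) : ℝ) := by
  have hH : 0 < H := hη.trans hηH
  obtain ⟨M, hM1, hM2, hM⟩ := gm_tail hab (show 0 < ε / 4 by positivity)
  obtain ⟨Y0, hY0, h0⟩ := law_low hab hε hη hH
  obtain ⟨Y1, -, h1⟩ := law_low (show -M < a from hM1) (show 0 < ε / 4 by positivity) hη hH
  obtain ⟨Y2, -, h2⟩ := law_low (show b < M from hM2) (show 0 < ε / 4 by positivity) hη hH
  refine ⟨Y0, hY0, ?_⟩
  filter_upwards [h0, h1, h2, eventually_gt_atTop 1] with T t0 t1 t2 hT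
  refine ⟨t0.1, ?_⟩
  set NT := (NN riemannZeta T (2 * T) : ℝ) with hNT
  have hNT0 : 0 ≤ NT := Nat.cast_nonneg _
  have e : NT = ∑ s ∈ Zf riemannZeta T (2 * T), (mult riemannZeta s : ℝ) := nn_eq hT.le
  set C0 := (Zf riemannZeta T (2 * T)).filter (fun s => cls a b η H T s) with hC0
  set C1 := (Zf riemannZeta T (2 * T)).filter (fun s => cls (-M) a η H T s) with hC1
  set C2 := (Zf riemannZeta T (2 * T)).filter (fun s => cls b M η H T s) with hC2
  have d1 : Disjoint C0 C1 := by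
    rw [Finset.disjoint_left]
    intro s hs hs'
    rw [hC0, Finset.mem_filter] at hs
    rw [hC1, Finset.mem_filter] at hs'
    exact cls_disj hη hηH hT le_rfl hs'.2 hs.2
  have d2 : Disjoint (C0 ∪ C1) C2 := by
    rw [Finset.disjoint_left]
    intro s hs hs'
    rw [hC2, Finset.mem_filter] at hs'
    rw [Finset.mem_union] at hs
    rcases hs with hs | hs
    · rw [hC0, Finset.mem_filter] at hs
      exact cls_disj hη hηH hT le_rfl hs.2 hs'.2
    · rw [hC1, Finset.mem_filter] at hs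
      exact cls_disj hη hηH hT hab.le hs.2 hs'.2
  have hsub : (C0 ∪ C1) ∪ C2 ⊆ Zf riemannZeta T (2 * T) := by
    refine Finset.union_subset (Finset.union_subset ?_ ?_) ?_
    · exact Finset.filter_subset _ _
    · exact Finset.filter_subset _ _
    · exact Finset.filter_subset _ _
  have hsum := Finset.sum_le_sum_of_subset_of_nonneg (f := fun s => (mult riemannZeta s : ℝ)) hsub
    fun _ _ _ => Nat.cast_nonneg _
  rw [Finset.sum_union d2, Finset.sum_union d1, ← e] at hsum
  have k0 := t0.2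
  have k1 := t1.2
  have k2 := t2.2
  have k3 : (1 - Gm01 a b - ε / 4) * NT ≤ (Gm01 (-M) a + Gm01 b M) * NT :=
    mul_le_mul_of_nonneg_right hM hNT0
  have k4 : 0 ≤ ε * NT := mul_nonneg hε.le hNT0
  rw [abs_le]
  constructor
  · linarith
  · linarith

end

end Pool.Agent.J4.H62.LD
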