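import Pool.Agent.J4.H62.LD.Did
import Pool.Agent.Y745.SW.Blk2
import Pool.Agent.Y655.SW.Trk

set_option autoImplicit false

/-! The pointwise inequalities for the zeros of zeta. -/

namespace Pool.Agent.J4.H62.LD

open Filter Topology MeasureTheory Complex H370 TH803UC TH803CL Pool.Agent.Y745.SW

noncomputable section

/-- the zeros with real part at most `1/2` -/
def ZL (U1 U2 : ℝ) : Finset ℂ := (Zf riemannZeta U1 U2).filter (fun s => s.re ≤ 1 / 2)

/-- the cost of a zero, without thickening -/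
lemma err_zero (B : ℝ → ℝ) (a N N0 κ1 Y0 L η1 t : ℝ) (z : ℂ) :
    err B a N N0 κ1 Y0 L 0 η1 t z = if |z.re - t| ≤ th a N N0 κ1 Y0 L |z.im| then
      2 * ‖1 - vt B a t z‖ + η1 else 2 * ‖vt B a t z‖ * Real.exp (|z.im| * L) := by
  unfold err
  rw [mul_zero, add_zero, sub_zero]
  split_ifs <;> ring

/-- the pointwise inequality for the distinct zeros -/
lemma pw_d (hTRK : P_TRK) (hζ : GoodL riemannZeta) {j : ℕ} {C N : ℝ} {B : ℝ → ℝ}
    (hW : Wf j C N B) {a L Λ η1 N0 κ1 Y0 t U1 U2 : ℝ} (hU : 1 ≤ U1) (hΛ : 0 ≤ Λ) (hΛL : Λ ≤ L)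
    (hη0 : 0 ≤ η1) :
    3 * (St B a U1 U2 0 t).re - 2 * ∫ x in (0:ℝ)..1, Rf x * ‖St B a U1 U2 (Λ * x) t‖ ^ 2 ≤
      2 * (((ZL U1 U2).filter (fun s => |s.im - t| ≤ th a N N0 κ1 Y0 L |(zz s).im|)).card : ℝ) +
      10 * ∑ s ∈ Zf riemannZeta U1 U2, (mult riemannZeta s : ℝ) * err B a N N0 κ1 Y0 L 0 η1 t (zz s) := by
  classical
  set Z := (Zf riemannZeta U1 U2).image zz with hZ
  set m : ℂ → ℕ := fun z => mult riemannZeta (1 / 2 + I * z) with hm
  set th' : ℝ → ℝ := th a N N0 κ1 Y0 L with hth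
  have hconj := Zconj' hζ (A := U1) (B := U2) hU
  have hmc := Zmc' hζ (A := U1) (B := U2) hU
  have hmain := did Z m (vt B a t) th' Λ L η1 t hconj (Zpos' hζ hU) hmc
    (fun z => vt_conj hW.cont hW.even a t z) (fun z hz => vt_real hW a t z hz) hΛ hΛL hη0
  -- (1)
  have e1 : ∑ z ∈ Z.filter (fun z => 0 ≤ z.im), cw m z * (vt B a t z).re = (St B a U1 U2 0 t).re := by
    have h := split_real' Z hconj m hmc (fun z => (vt B a t z).re) (fun z => by
      rw [vt_conj hW.cont hW.even, Complex.conj_re])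
    rw [← h]
    unfold St
    rw [hZ, Finset.sum_image (fun s _ s' _ h => zz_inj h), Complex.re_sum]
    refine Finset.sum_congr rfl fun s _ => ?_
    simp only [hm]
    rw [zz_back']
    simp
  -- (2)
  have e2 : ∑ z ∈ Z, ∑ w ∈ Z, (m z : ℂ) * (m w : ℂ) * (vt B a t z * vt B a t w * kap (Λ * (z - w)) ^ 2) =
      ∑ s ∈ Zf riemannZeta U1 U2, ∑ s' ∈ Zf riemannZeta U1 U2, (mult riemannZeta s : ℂ) * (mult riemannZeta s' : ℂ) *
      (vt B a t (zz s) * vt B a t (zz s') * kap (Λ * (zz s - zz s')) ^ 2) := by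
    rw [hZ, Finset.sum_image (fun s _ s' _ h => zz_inj h)]
    refine Finset.sum_congr rfl fun s _ => ?_
    rw [Finset.sum_image (fun s _ s' _ h => zz_inj h)]
    refine Finset.sum_congr rfl fun s' _ => ?_
    simp only [hm]
    rw [zz_back', zz_back']
  -- (3)
  have e3 : ∑ z ∈ Z.filter (fun z => 0 ≤ z.im), cw m z *
      (if |z.re - t| ≤ th' |z.im| then 2 * ‖1 - vt B a t z‖ + η1 else
        2 * ‖vt B a t z‖ * Real.exp (|z.im| * L)) =
      ∑ s ∈ Zf riemannZeta U1 U2, (mult riemannZeta s : ℝ) * err B a N N0 κ1 Y0 L 0 η1 t (zz s) := by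
    have h := split_real' Z hconj m hmc (fun z => err B a N N0 κ1 Y0 L 0 η1 t z) (fun z => by
      have h1 : ‖1 - vt B a t ((starRingEnd ℂ) z)‖ = ‖1 - vt B a t z‖ := by
        rw [vt_conj hW.cont hW.even, ← map_one (starRingEnd ℂ), ← map_sub, RCLike.norm_conj, map_one]
      have h2 : ‖vt B a t ((starRingEnd ℂ) z)‖ = ‖vt B a t z‖ := by
        rw [vt_conj hW.cont hW.even, RCLike.norm_conj]
      simp only [err_zero, Complex.conj_re, Complex.conj_im, abs_neg]
      rw [h1, h2])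
    have h' : ∑ z ∈ Z, (m z : ℝ) * err B a N N0 κ1 Y0 L 0 η1 t z =
        ∑ s ∈ Zf riemannZeta U1 U2, (mult riemannZeta s : ℝ) * err B a N N0 κ1 Y0 L 0 η1 t (zz s) := by
      rw [hZ, Finset.sum_image (fun s _ s' _ h => zz_inj h)]
      refine Finset.sum_congr rfl fun s _ => ?_
      simp only [hm]
      rw [zz_back']
    rw [← h', h]
    refine Finset.sum_congr rfl fun z _ => ?_
    rw [err_zero]
  -- (4)
  have e4 : (((Z.filter (fun z => 0 ≤ z.im)).filter (fun z => |z.re - t| ≤ th' |z.im|)).card : ℝ) ≤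
      (((ZL U1 U2).filter (fun s => |s.im - t| ≤ th' |(zz s).im|)).card : ℝ) := by
    have hsub : (Z.filter (fun z => 0 ≤ z.im)).filter (fun z => |z.re - t| ≤ th' |z.im|) ⊆
        ((ZL U1 U2).filter (fun s => |s.im - t| ≤ th' |(zz s).im|)).image zz := by
      intro z hz
      rw [Finset.mem_filter, Finset.mem_filter, hZ, Finset.mem_image] at hz
      obtain ⟨⟨⟨s, hs, rfl⟩, h1⟩, h2⟩ := hz
      refine Finset.mem_image_of_mem _ ?_
      rw [zz_im] at h1
      rw [zz_re] at h2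
      unfold ZL
      rw [Finset.mem_filter, Finset.mem_filter]
      exact ⟨⟨hs, by linarith⟩, h2⟩
    exact_mod_cast (Finset.card_le_card hsub).trans Finset.card_image_le
  rw [e1, e2, e3, hTRK B a t Λ U1 U2 hW.cont hW.even hU] at hmain
  linarith

open Classical in
/-- the number of zeros that are active at `t`, with weights `w` -/
def nw (G : Finset ℂ) (w : ℂ → ℝ) (r : ℂ → ℝ) (t : ℝ) : ℝ :=
  ∑ s ∈ G, w s * (if |s.im - t| ≤ r s then 1 else 0)

/-- the pointwise inequality for the zeros with multiplicity -/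
lemma pw_m {B : ℝ → ℝ} {a L N η1 N0 κ1 Y0 t U1 U2 : ℝ} (hL : 0 ≤ L) (hη0 : 0 ≤ η1) :
    |(St B a U1 U2 0 t).re - nw (Zf riemannZeta U1 U2) (fun s => (mult riemannZeta s : ℝ))
        (fun s => th a N N0 κ1 Y0 L |(zz s).im|) t| ≤
      ∑ s ∈ Zf riemannZeta U1 U2, (mult riemannZeta s : ℝ) * err B a N N0 κ1 Y0 L 0 η1 t (zz s) := by
  classical
  have e1 : (St B a U1 U2 0 t).re = ∑ s ∈ Zf riemannZeta U1 U2,
      (mult riemannZeta s : ℝ) * (vt B a t (zz s)).re := by
    unfold St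
    rw [Complex.re_sum]
    refine Finset.sum_congr rfl fun s _ => ?_
    simp
  unfold nw
  rw [e1, ← Finset.sum_sub_distrib]
  refine (Finset.abs_sum_le_sum_abs _ _).trans (Finset.sum_le_sum fun s _ => ?_)
  rw [← mul_sub, abs_mul, abs_of_nonneg (Nat.cast_nonneg _)]
  refine mul_le_mul_of_nonneg_left ?_ (Nat.cast_nonneg _)
  rw [err_zero, zz_re]
  set v := vt B a t (zz s)
  split_ifs with h
  · have h1 := Complex.abs_re_le_norm (1 - v)
    rw [Complex.sub_re, Complex.one_re, abs_sub_comm] at h1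
    have := norm_nonneg (1 - v)
    linarith
  · rw [sub_zero]
    have h1 := Complex.abs_re_le_norm v
    have h2 : 1 ≤ Real.exp (|(zz s).im| * L) := Real.one_le_exp (mul_nonneg (abs_nonneg _) hL)
    have h3 := norm_nonneg v
    have h4 : ‖v‖ ≤ ‖v‖ * Real.exp (|(zz s).im| * L) := le_mul_of_one_le_right h3 h2
    nlinarith

end

end Pool.Agent.J4.H62.LD
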